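import Pool.Agent.Q37.Serre.Rees

/-!
Regular sequences at a prime `P` on `S / J` in elementary terms.
-/

open LinearMap RingTheory.Sequence CategoryTheory Abelian Limits Pointwise IsLocalRing

universe u

namespace Q37.Serre

section LocalD

variable {A : Type u} [CommRing A]

lemma D.mono {𝔪 𝔞 : Ideal A} {m n : ℕ} (hmn : m ≤ n) (h : D 𝔪 n 𝔞) : D 𝔪 m 𝔞 := by
  induction n generalizing m 𝔞 with
  | zero => rw [Nat.le_zero.1 hmn]; trivial
  | succ n ih =>
    cases m with
    | zero => trivial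
    | succ m =>
      obtain ⟨y, hy, h1, h2⟩ := h
      exact ⟨y, hy, h1, ih (by omega) h2⟩

variable [IsLocalRing A]

lemma D.top {n : ℕ} : D (maximalIdeal A) n (⊤ : Ideal A) := by
  induction n with
  | zero => trivial
  | succ n ih =>
    refine ⟨0, Ideal.zero_mem _, fun _ _ => trivial, ?_⟩
    rw [top_sup_eq]; exact ih

variable [IsNoetherianRing A]

lemma D_iff_DGE {𝔞 : Ideal A} (h𝔞 : 𝔞 ≠ ⊤) {n : ℕ} :
    D (maximalIdeal A) n 𝔞 ↔ DGE (A := A) (A ⧸ 𝔞) n := by
  haveI : Nontrivial (A ⧸ 𝔞) := Ideal.Quotient.nontrivial_iff.2 h𝔞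
  rw [D_iff]
  constructor
  · rintro ⟨rs, rfl, h2, h3⟩
    exact DGE.of_regular h2 ((weak_iff rs 𝔞).2 h3)
  · intro h
    obtain ⟨rs, h1, h2, h3⟩ := h.exists_regular
    exact ⟨rs, h1, h2, (weak_iff rs 𝔞).1 h3.1⟩

/-- The depth lemma. -/
theorem D.depth_lemma {𝔞 𝔟 : Ideal A} {x : A} (hx : x ∈ maximalIdeal A)
    (h𝔟 : ∀ a, a ∈ 𝔟 ↔ x * a ∈ 𝔞) {n : ℕ} (h1 : D (maximalIdeal A) n 𝔞)
    (h2 : 𝔟 = ⊤ ∨ D (maximalIdeal A) (n + 1) 𝔟) :
    D (maximalIdeal A) n (𝔞 ⊔ Ideal.span {x}) := by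
  by_cases hbt : 𝔟 = ⊤
  · have hxa : x ∈ 𝔞 := by
      have := (h𝔟 1).1 (hbt ▸ trivial)
      rwa [mul_one] at this
    have : 𝔞 ⊔ Ideal.span {x} = 𝔞 :=
      sup_eq_left.2 ((Ideal.span_singleton_le_iff_mem _).2 hxa)
    rw [this]; exact h1
  replace h2 : D (maximalIdeal A) (n + 1) 𝔟 := h2.resolve_left hbt
  have hat : 𝔞 ≠ ⊤ := by
    rintro rfl
    exact hbt ((Ideal.eq_top_iff_one _).2 ((h𝔟 1).2 trivial))
  have hsup : 𝔞 ⊔ Ideal.span {x} ≠ ⊤ := by
    have : 𝔞 ⊔ Ideal.span {x} ≤ maximalIdeal A :=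
      sup_le (IsLocalRing.le_maximalIdeal hat) ((Ideal.span_singleton_le_iff_mem _).2 hx)
    exact fun h => (IsLocalRing.maximalIdeal.isMaximal A).ne_top (top_le_iff.1 (h ▸ this))
  rw [D_iff_DGE hsup]
  rw [D_iff_DGE hat] at h1
  rw [D_iff_DGE hbt] at h2
  have hle : 𝔟 ≤ Submodule.comap (LinearMap.mulLeft A x) 𝔞 := fun a ha => (h𝔟 a).1 ha
  refine DGE.of_exact (Submodule.mapQ 𝔟 𝔞 (LinearMap.mulLeft A x) hle)
    (Submodule.factor (le_sup_left : 𝔞 ≤ 𝔞 ⊔ Ideal.span {x})) ?_ ?_ ?_ h1 h2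
  · rw [← LinearMap.ker_eq_bot, LinearMap.ker_eq_bot']
    intro a ha
    obtain ⟨a, rfl⟩ := Ideal.Quotient.mk_surjective a
    have ha' : Ideal.Quotient.mk 𝔞 (x * a) = 0 := ha
    rw [Ideal.Quotient.eq_zero_iff_mem] at ha' ⊢
    exact (h𝔟 a).2 ha'
  · exact Submodule.factor_surjective _
  · intro a
    obtain ⟨a, rfl⟩ := Ideal.Quotient.mk_surjective a
    have e1 : Submodule.factor (le_sup_left : 𝔞 ≤ 𝔞 ⊔ Ideal.span {x}) (Ideal.Quotient.mk 𝔞 a) =
      Ideal.Quotient.mk (𝔞 ⊔ Ideal.span {x}) a := rfl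
    rw [e1, Ideal.Quotient.eq_zero_iff_mem]
    constructor
    · intro h
      obtain ⟨b, hb, c, hc, rfl⟩ := Submodule.mem_sup.1 h
      obtain ⟨d, rfl⟩ := Ideal.mem_span_singleton'.1 hc
      refine ⟨Ideal.Quotient.mk 𝔟 d, ?_⟩
      have : Ideal.Quotient.mk 𝔞 (x * d) = Ideal.Quotient.mk 𝔞 (b + d * x) := by
        rw [Ideal.Quotient.eq]
        have e : x * d - (b + d * x) = - b := by ring
        rw [e]; exact 𝔞.neg_mem hb
      exact this
    · rintro ⟨c, hc⟩
      obtain ⟨c, rfl⟩ := Ideal.Quotient.mk_surjective c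
      have hc' : Ideal.Quotient.mk 𝔞 (x * c) = Ideal.Quotient.mk 𝔞 a := hc
      rw [Ideal.Quotient.eq] at hc'
      have e : a = -(x * c - a) + c * x := by ring
      rw [e]
      exact Submodule.add_mem_sup (𝔞.neg_mem hc') (Ideal.mul_mem_left _ _
        (Ideal.mem_span_singleton_self x))

/-- The exchange property. -/
theorem D.exchange {𝔞 : Ideal A} {y : A} (hy : y ∈ maximalIdeal A)
    (hreg : ∀ a, y * a ∈ 𝔞 → a ∈ 𝔞) {n : ℕ} (h : D (maximalIdeal A) (n + 1) 𝔞) :
    D (maximalIdeal A) n (𝔞 ⊔ Ideal.span {y}) :=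
  D.depth_lemma (𝔟 := 𝔞) hy (fun a => ⟨fun ha => 𝔞.mul_mem_left _ ha, hreg a⟩)
    (h.mono (Nat.le_succ n)) (Or.inr h)

/-- If no element of the maximal ideal is regular, there is a socle element. -/
theorem exists_regular_or_socle (𝔞 : Ideal A) :
    (∃ y ∈ maximalIdeal A, ∀ a, y * a ∈ 𝔞 → a ∈ 𝔞) ∨
      ∃ a ∉ 𝔞, ∀ y ∈ maximalIdeal A, y * a ∈ 𝔞 := by
  by_cases h : Subsingleton ((A ⧸ maximalIdeal A) →ₗ[A] (A ⧸ 𝔞))
  · left
    obtain ⟨y, hy, h1⟩ := IsSMulRegular.subsingleton_linearMap_iff.1 h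
    rw [Ideal.annihilator_quotient] at hy
    exact ⟨y, hy, (smulRegular_iff 𝔞 y).1 h1⟩
  · right
    rw [not_subsingleton_iff_nontrivial] at h
    obtain ⟨f, hf⟩ := exists_ne (0 : (A ⧸ maximalIdeal A) →ₗ[A] (A ⧸ 𝔞))
    obtain ⟨a, ha⟩ := Ideal.Quotient.mk_surjective (f 1)
    refine ⟨a, fun h => hf ?_, fun y hy => ?_⟩
    · have h0 : f 1 = 0 := by rw [← ha]; exact Ideal.Quotient.eq_zero_iff_mem.2 h
      ext
      exact h0
    · rw [← Ideal.Quotient.eq_zero_iff_mem]
      have e1 : Ideal.Quotient.mk 𝔞 (y * a) = y • Ideal.Quotient.mk 𝔞 a := rfl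
      rw [e1, ha, ← map_smul]
      have e2 : y • (1 : A ⧸ maximalIdeal A) = 0 := by
        have : y • (1 : A ⧸ maximalIdeal A) = Ideal.Quotient.mk _ (y * 1) := rfl
        rw [this, mul_one]; exact Ideal.Quotient.eq_zero_iff_mem.2 hy
      rw [e2, map_zero]

end LocalD

section Elementary

variable {S : Type u} [CommRing S]

/-- `a` belongs to `J` locally at `P`. -/
def InSat (J P : Ideal S) (a : S) : Prop := ∃ s, s ∉ P ∧ s * a ∈ J

/-- There is a sequence of `n` elements of `P` which is weakly regular on `(S / J)_P`. -/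
def E (P : Ideal S) : ℕ → Ideal S → Prop
  | 0, _ => True
  | n + 1, J => ∃ y ∈ P, (∀ a, InSat J P (y * a) → InSat J P a) ∧ E P n (J ⊔ Ideal.span {y})

section loc

variable (A : Type u) [CommRing A] [Algebra S A] {P : Ideal S} [P.IsPrime]
  [IsLocalization.AtPrime A P]

include A

lemma mem_map_iff {J : Ideal S} {a : S} : algebraMap S A a ∈ J.map (algebraMap S A) ↔
    InSat J P a := by
  rw [IsLocalization.algebraMap_mem_map_algebraMap_iff P.primeCompl]
  rfl

lemma reg_iff {J : Ideal S} {y : S} : (∀ a, InSat J P (y * a) → InSat J P a) ↔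
    ∀ a : A, algebraMap S A y * a ∈ J.map (algebraMap S A) → a ∈ J.map (algebraMap S A) := by
  constructor
  · intro h a ha
    obtain ⟨⟨b, s⟩, hb⟩ := IsLocalization.surj P.primeCompl a
    have hs := IsLocalization.map_units A s
    have h1 : algebraMap S A (y * b) ∈ J.map (algebraMap S A) := by
      rw [map_mul, ← hb, ← mul_assoc]
      exact Ideal.mul_mem_right _ _ ha
    have h2 := (mem_map_iff A).2 (h b ((mem_map_iff A).1 h1))
    simp only at hb
    rw [← hb] at h2
    exact (Ideal.mul_unit_mem_iff_mem _ hs).1 h2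
  · intro h a ha
    rw [← mem_map_iff A, map_mul] at ha
    rw [← mem_map_iff A]
    exact h _ ha

lemma E_iff_D [IsLocalRing A] {n : ℕ} {J : Ideal S} :
    E P n J ↔ D (maximalIdeal A) n (J.map (algebraMap S A)) := by
  induction n generalizing J with
  | zero => exact ⟨fun _ => trivial, fun _ => trivial⟩
  | succ n ih =>
    constructor
    · rintro ⟨y, hy, hreg, h⟩
      refine ⟨algebraMap S A y, ?_, (reg_iff A).1 hreg, ?_⟩
      · exact (IsLocalization.AtPrime.to_map_mem_maximal_iff A P y).2 hy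
      · rw [ih, Ideal.map_sup, Ideal.map_span, Set.image_singleton] at h
        exact h
    · rintro ⟨y, hy, hreg, h⟩
      obtain ⟨⟨b, s⟩, hb⟩ := IsLocalization.surj P.primeCompl y
      have hs := IsLocalization.map_units A s
      simp only at hb
      refine ⟨b, ?_, ?_, ?_⟩
      · rw [← IsLocalization.AtPrime.to_map_mem_maximal_iff A P b, ← hb]
        exact Ideal.mul_mem_right _ _ hy
      · rw [reg_iff A, ← hb]
        intro a ha
        refine hreg a ?_
        have e : y * algebraMap S A s * a = (y * a) * algebraMap S A s := by ring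
        rw [e] at ha
        exact (Ideal.mul_unit_mem_iff_mem _ hs).1 ha
      · rw [ih, Ideal.map_sup, Ideal.map_span, Set.image_singleton, ← hb]
        rw [Ideal.span_singleton_mul_right_unit hs]
        exact h

end loc

variable {P : Ideal S}

lemma E.mono {m n : ℕ} {J : Ideal S} (hmn : m ≤ n) (h : E P n J) : E P m J := by
  induction n generalizing m J with
  | zero => rw [Nat.le_zero.1 hmn]; trivial
  | succ n ih =>
    cases m with
    | zero => trivial
    | succ m =>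
      obtain ⟨y, hy, h1, h2⟩ := h
      exact ⟨y, hy, h1, ih (by omega) h2⟩

/-- `E` depends only on the ideal locally at `P`. -/
lemma E_congr [P.IsPrime] {J J' : Ideal S} (h : ∀ a, InSat J P a ↔ InSat J' P a) {n : ℕ} :
    E P n J ↔ E P n J' := by
  have hle : ∀ {J J' : Ideal S}, (∀ a, InSat J P a → InSat J' P a) →
      J.map (algebraMap S (Localization.AtPrime P)) ≤
        J'.map (algebraMap S (Localization.AtPrime P)) := by
    intro J J' h
    rw [Ideal.map_le_iff_le_comap]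
    intro a ha
    rw [Ideal.mem_comap, mem_map_iff (Localization.AtPrime P) (P := P)]
    exact h a ⟨1, fun h1 => Ideal.IsPrime.ne_top' ((Ideal.eq_top_iff_one P).2 h1), by
      rwa [one_mul]⟩
  rw [E_iff_D (Localization.AtPrime P), E_iff_D (Localization.AtPrime P),
    le_antisymm (hle fun a => (h a).1) (hle fun a => (h a).2)]

/-- Transport along a surjection. -/
lemma E_comap {S' : Type u} [CommRing S'] (ρ : S →+* S') (hρ : Function.Surjective ρ)
    {P : Ideal S'} {n : ℕ} {J : Ideal S'} : E (P.comap ρ) n (J.comap ρ) ↔ E P n J := by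
  have hsat : ∀ (J : Ideal S') (a : S), InSat (J.comap ρ) (P.comap ρ) a ↔ InSat J P (ρ a) := by
    intro J a
    constructor
    · rintro ⟨s, hs, h⟩
      exact ⟨ρ s, hs, by rw [← map_mul]; exact h⟩
    · rintro ⟨s, hs, h⟩
      obtain ⟨s, rfl⟩ := hρ s
      exact ⟨s, hs, by rw [Ideal.mem_comap, map_mul]; exact h⟩
  have hsup : ∀ (J : Ideal S') (y : S), J.comap ρ ⊔ Ideal.span {y} =
      (J ⊔ Ideal.span {ρ y}).comap ρ := by
    intro J y
    apply le_antisymm
    · refine sup_le (Ideal.comap_mono le_sup_left) ?_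
      rw [Ideal.span_singleton_le_iff_mem, Ideal.mem_comap]
      exact Ideal.mem_sup_right (Ideal.mem_span_singleton_self _)
    · intro a ha
      rw [Ideal.mem_comap] at ha
      obtain ⟨b, hb, c, hc, h⟩ := Submodule.mem_sup.1 ha
      obtain ⟨d, rfl⟩ := Ideal.mem_span_singleton'.1 hc
      obtain ⟨d, rfl⟩ := hρ d
      have e : a = (a - d * y) + d * y := by ring
      rw [e]
      refine Submodule.add_mem_sup ?_ (Ideal.mul_mem_left _ _ (Ideal.mem_span_singleton_self y))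
      rw [Ideal.mem_comap, map_sub, map_mul, ← h, add_sub_cancel_right]
      exact hb
  induction n generalizing J with
  | zero => exact ⟨fun _ => trivial, fun _ => trivial⟩
  | succ n ih =>
    constructor
    · rintro ⟨y, hy, hreg, h⟩
      refine ⟨ρ y, hy, ?_, ?_⟩
      · intro a ha
        obtain ⟨a, rfl⟩ := hρ a
        rw [← map_mul, ← hsat] at ha
        rw [← hsat]
        exact hreg a ha
      · rw [hsup] at h
        exact ih.1 h
    · rintro ⟨y, hy, hreg, h⟩
      obtain ⟨y, rfl⟩ := hρ y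
      refine ⟨y, hy, ?_, ?_⟩
      · intro a ha
        rw [hsat, map_mul] at ha
        rw [hsat]
        exact hreg _ ha
      · rw [hsup]
        exact ih.2 h

end Elementary

end Q37.Serre
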