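import Pool.Agent.Q37.Serre.SR

/-!
Heights.
-/

set_option linter.unusedSectionVars false
set_option linter.style.haveILetI false

open MvPolynomial

universe u

namespace Q37.Serre

section general

variable {S : Type u} [CommRing S]

lemma height_comap_ge {S' : Type u} [CommRing S'] (f : S →+* S') (hf : Function.Surjective f)
    (p : Ideal S') [p.IsPrime] : p.height ≤ (p.comap f).height := by
  have h1 := Order.height_le_height_apply_of_strictMono (PrimeSpectrum.comap f) (by
    intro p q hpq
    refine lt_of_le_of_ne (fun x hx => hpq.le hx) fun h => hpq.ne ?_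
    ext x
    obtain ⟨x, rfl⟩ := hf x
    have := congrArg (fun z : PrimeSpectrum S => x ∈ z.asIdeal) h
    exact iff_of_eq this) ⟨p, inferInstance⟩
  rw [← PrimeSpectrum.height_eq_orderHeight, ← PrimeSpectrum.height_eq_orderHeight] at h1
  exact h1

/-- the height of `P` in `S / I` -/
noncomputable def hq (I P : Ideal S) : ℕ∞ := (P.map (Ideal.Quotient.mk I)).height

lemma map_prime {I P : Ideal S} [P.IsPrime] (h : I ≤ P) :
    (P.map (Ideal.Quotient.mk I)).IsPrime :=
  Ideal.map_isPrime_of_surjective Ideal.Quotient.mk_surjective (by rwa [Ideal.mk_ker])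

lemma hq_anti {I I' P : Ideal S} [P.IsPrime] (h : I ≤ I') (h' : I' ≤ P) :
    hq I' P ≤ hq I P := by
  haveI := map_prime h'
  have h1 := height_comap_ge (Ideal.Quotient.factor h) (Ideal.Quotient.factor_surjective h)
    (P.map (Ideal.Quotient.mk I'))
  have h2 : (P.map (Ideal.Quotient.mk I')).comap (Ideal.Quotient.factor h) =
      P.map (Ideal.Quotient.mk I) := by
    ext x
    obtain ⟨x, rfl⟩ := Ideal.Quotient.mk_surjective x
    rw [Ideal.mem_comap, Ideal.Quotient.factor_mk]
    rw [← Ideal.mem_comap, ← Ideal.mem_comap (f := Ideal.Quotient.mk I),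
      Ideal.comap_map_of_surjective _ Ideal.Quotient.mk_surjective,
      Ideal.comap_map_of_surjective _ Ideal.Quotient.mk_surjective,
      ← RingHom.ker_eq_comap_bot, ← RingHom.ker_eq_comap_bot, Ideal.mk_ker, Ideal.mk_ker,
      sup_eq_left.2 h', sup_eq_left.2 (h.trans h')]
  rw [h2] at h1
  exact h1

lemma exists_bottom {I P : Ideal S} [P.IsPrime] (h : I ≤ P) {n : ℕ} (hn : (n : ℕ∞) ≤ hq I P) :
    ∃ Q : Ideal S, Q.IsPrime ∧ I ≤ Q ∧ Q ≤ P ∧ Q.height + n ≤ P.height := by
  haveI := map_prime h
  let p : PrimeSpectrum (S ⧸ I) := ⟨P.map (Ideal.Quotient.mk I), inferInstance⟩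
  have h1 : (n : ℕ∞) ≤ Order.height p := by
    rw [← PrimeSpectrum.height_eq_orderHeight]; exact hn
  obtain ⟨s, hs, hl⟩ := Order.exists_series_of_le_height p h1
  have key : ∀ m : ℕ, ∀ s : LTSeries (PrimeSpectrum (S ⧸ I)), s.length = m →
      (s.head.asIdeal.comap (Ideal.Quotient.mk I)) ≤ (s.last.asIdeal.comap (Ideal.Quotient.mk I)) ∧
      (s.head.asIdeal.comap (Ideal.Quotient.mk I)).height + m ≤
      (s.last.asIdeal.comap (Ideal.Quotient.mk I)).height := by
    intro m
    induction m with
    | zero =>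
      intro s hs
      have : s.head = s.last := by
        unfold RelSeries.head RelSeries.last
        congr 1
        ext; simp [hs]
      rw [this]; simp
    | succ m ih =>
      intro s hs
      have h1 := ih s.eraseLast (by rw [RelSeries.eraseLast_length, hs]; rfl)
      have h2 : s.eraseLast.last < s.last := s.eraseLast_last_rel_last (by omega)
      rw [RelSeries.head_eraseLast] at h1
      have h3 : (s.eraseLast.last.asIdeal.comap (Ideal.Quotient.mk I)) <
          (s.last.asIdeal.comap (Ideal.Quotient.mk I)) := by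
        refine lt_of_le_of_ne (Ideal.comap_mono h2.le) fun h => h2.ne ?_
        ext x
        obtain ⟨x, rfl⟩ := Ideal.Quotient.mk_surjective x
        have := congrArg (fun z : Ideal S => x ∈ z) h
        exact iff_of_eq this
      refine ⟨h1.1.trans h3.le, ?_⟩
      have h4 := Ideal.height_add_one_le_of_lt_of_isPrime h3
      calc _ = (s.head.asIdeal.comap (Ideal.Quotient.mk I)).height + m + 1 := by
            push_cast; rw [add_assoc]
        _ ≤ (s.eraseLast.last.asIdeal.comap (Ideal.Quotient.mk I)).height + 1 := by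
            gcongr; exact h1.2
        _ ≤ _ := h4
  have h2 := key n s hl
  rw [hs] at h2
  have h3 : p.asIdeal.comap (Ideal.Quotient.mk I) = P := by
    show (P.map (Ideal.Quotient.mk I)).comap (Ideal.Quotient.mk I) = P
    rw [Ideal.comap_map_of_surjective _ Ideal.Quotient.mk_surjective,
      ← RingHom.ker_eq_comap_bot, Ideal.mk_ker, sup_eq_left.2 h]
  rw [h3] at h2
  refine ⟨_, inferInstance, ?_, h2.1, h2.2⟩
  intro x hx
  rw [Ideal.mem_comap, Ideal.Quotient.eq_zero_iff_mem.2 hx]
  exact Ideal.zero_mem _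

end general

variable {V : Type u} [DecidableEq V] [Fintype V] {k : Type u} [Field k]

lemma height_sx (F : Finset V) :
    ((Fintype.card V - F.card : ℕ) : ℕ∞) ≤ (mI k (sx F)).height := by
  induction hn : Fintype.card V - F.card generalizing F with
  | zero => simp
  | succ n ih =>
    have h1 : F ≠ Finset.univ := by
      rintro rfl
      rw [Finset.card_univ] at hn; omega
    obtain ⟨v, hv⟩ : ∃ v, v ∉ F := by
      by_contra h
      push Not at h
      exact h1 (Finset.eq_univ_iff_forall.2 h)
    have h2 := ih (insert v F) (by rw [Finset.card_insert_of_notMem hv]; omega)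
    haveI := mI_sx_prime (k := k) (insert v F)
    haveI := mI_sx_prime (k := k) F
    have h3 : mI k (sx (insert v F)) < mI k (sx F) := by
      refine lt_of_le_of_ne (mI_mono fun τ h => ?_) fun h => ?_
      · exact Finset.Subset.trans h (Finset.subset_insert _ _)
      · have e1 := fp_sx (k := k) F
        have e2 := fp_sx (k := k) (insert v F)
        have e3 : v ∈ fp (mI k (sx (insert v F))) := by
          rw [e2]; exact Finset.mem_insert_self _ _
        rw [mem_fp] at e3
        have e4 : v ∉ fp (mI k (sx F)) := by rw [e1]; exact hv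
        rw [mem_fp, not_not] at e4
        rw [h] at e3
        exact e3 e4
    have h4 := Ideal.height_add_one_le_of_lt_of_isPrime h3
    calc ((n + 1 : ℕ) : ℕ∞) = n + 1 := by push_cast; rfl
      _ ≤ (mI k (sx (insert v F))).height + 1 := by gcongr
      _ ≤ _ := h4

/-- (H1) -/
lemma height_ge {Γ : Set (Finset V)} (hΓ : Down Γ) {e : ℕ} (he : ∀ τ ∈ Γ, τ.card ≤ e)
    {P : Ideal (MvPolynomial V k)} [P.IsPrime] (hP : mI k Γ ≤ P) {n : ℕ}
    (hn : (n : ℕ∞) ≤ hq (mI k Γ) P) : ((n + (Fintype.card V - e) : ℕ) : ℕ∞) ≤ P.height := by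
  obtain ⟨Q, hQ, h1, h2, h3⟩ := exists_bottom hP hn
  have h4 := (mI_le_iff hΓ).1 h1
  have h5 : mI k (sx (fp Q)) ≤ Q := by
    rw [mI_sx, Ideal.span_le]
    rintro _ ⟨v, hv, rfl⟩
    by_contra h
    exact hv (mem_fp.2 h)
  have h6 := Ideal.height_mono h5
  have h7 := height_sx (k := k) (fp Q)
  have h8 := he _ h4
  calc ((n + (Fintype.card V - e) : ℕ) : ℕ∞) ≤ ((Fintype.card V - (fp Q).card + n : ℕ) : ℕ∞) := by
        norm_cast; omega
    _ ≤ Q.height + n := by
        push_cast; gcongr; exact h7.trans h6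
    _ ≤ _ := h3

/-- (H2) -/
lemma height_le {Γ : Set (Finset V)} (hΓ : Down Γ) {F : Finset V} (hF : F ∈ Γ)
    {P : Ideal (MvPolynomial V k)} [P.IsPrime] (hP : fp P ⊆ F) :
    P.height ≤ hq (mI k Γ) P + (Fintype.card V - F.card : ℕ) := by
  have h1 : mI k (sx F) ≤ P := (mI_le_iff (sx_down F)).2 hP
  have h2 : mI k Γ ≤ mI k (sx F) := mI_mono fun τ h => hΓ _ hF _ h
  have h3 := hq_anti (P := P) h2 h1
  have h4 := Ideal.height_le_height_add_encard_of_subset
    (X '' {v | v ∉ F} : Set (MvPolynomial V k)) (p := P) (by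
      rw [← Ideal.span_le, ← mI_sx]; exact h1)
  have h5 : (X '' {v | v ∉ F} : Set (MvPolynomial V k)).encard ≤
      (Fintype.card V - F.card : ℕ) := by
    refine (Set.encard_image_le _ _).trans ?_
    have : {v | v ∉ F} = ((Fᶜ : Finset V) : Set V) := by ext; simp
    rw [this, Set.encard_coe_eq_coe_finsetCard, Finset.card_compl]
  refine h4.trans (add_le_add ?_ h5)
  rw [← mI_sx]
  exact h3

end Q37.Serre
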