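import Pool.Agent.Q37.Serre.Ht

/-!
Depth one for reduced rings, and a connectedness lemma.
-/

set_option linter.unusedSectionVars false
set_option linter.style.haveILetI false

open MvPolynomial

universe u

namespace Q37.Serre

section general

variable {S : Type u} [CommRing S]

/-- A reduced ring has depth at least one at the primes which are not minimal. -/
theorem E_one [IsNoetherianRing S] {J : Ideal S} (hJ : J.IsRadical) {P Q : Ideal S} [P.IsPrime]
    [Q.IsPrime] (hJQ : J ≤ Q) (hQP : Q < P) : E P 1 J := by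
  classical
  have hfin := Ideal.finite_minimalPrimes_of_isNoetherianRing S J
  have h1 : ¬ ((P : Set S) ⊆ ⋃ p ∈ {p | p ∈ J.minimalPrimes ∧ p ≤ P}, (id p : Ideal S)) := by
    rw [Ideal.subset_union_prime_finite (hfin.subset fun p hp => hp.1) P P
      (fun p hp _ _ => hp.1.1.1)]
    rintro ⟨p, ⟨hp, hpP⟩, hPp⟩
    have h2 : p = P := le_antisymm hpP hPp
    subst h2
    exact absurd (hp.2 ⟨inferInstance, hJQ⟩ hQP.le) (not_le_of_gt hQP)
  rw [Set.not_subset] at h1
  obtain ⟨y, hyP, hy⟩ := h1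
  simp only [Set.mem_iUnion, not_exists, id] at hy
  refine ⟨y, hyP, ?_, trivial⟩
  rintro a ⟨s, hs, h⟩
  -- elements outside `P` in the other minimal primes
  have h2 : ∃ t, t ∉ P ∧ ∀ p ∈ J.minimalPrimes, ¬ p ≤ P → t ∈ p := by
    have h3 : ∀ p ∈ hfin.toFinset, ∃ t, t ∉ P ∧ (¬ p ≤ P → t ∈ p) := by
      intro p _
      by_cases hp : p ≤ P
      · exact ⟨1, fun h => Ideal.IsPrime.ne_top' ((Ideal.eq_top_iff_one P).2 h),
          fun h => absurd hp h⟩
      · obtain ⟨t, ht, ht'⟩ := SetLike.not_le_iff_exists.1 hp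
        exact ⟨t, ht', fun _ => ht⟩
    choose! t ht1 ht2 using h3
    refine ⟨∏ p ∈ hfin.toFinset, t p, ?_, ?_⟩
    · rw [Ideal.IsPrime.prod_mem_iff]
      push Not
      exact ht1
    · intro p hp hpP
      exact Ideal.mem_of_dvd _ (Finset.dvd_prod_of_mem _ (hfin.mem_toFinset.2 hp))
        (ht2 p (hfin.mem_toFinset.2 hp) hpP)
  obtain ⟨t, htP, ht⟩ := h2
  refine ⟨t, htP, ?_⟩
  rw [← hJ.radical, ← Ideal.sInf_minimalPrimes, Submodule.mem_sInf]
  intro (p : Ideal S) hp
  by_cases hpP : p ≤ P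
  · haveI := hp.1.1
    have h3 : s * (y * a) ∈ p := hp.1.2 h
    rcases ‹p.IsPrime›.mem_or_mem h3 with h4 | h4
    · exact absurd (hpP h4) hs
    · rcases ‹p.IsPrime›.mem_or_mem h4 with h5 | h5
      · exact absurd h5 (hy p ⟨hp, hpP⟩)
      · exact p.mul_mem_left _ h5
  · exact p.mul_mem_right _ (ht p hp hpP)

/-- Connectedness. -/
theorem not_E_two {J P : Ideal S} [P.IsPrime] (hJ : J.IsRadical) {𝔟 𝔠 : Ideal S}
    (hbc : ∀ b ∈ 𝔟, ∀ c ∈ 𝔠, InSat J P (b * c)) (hP : P ≤ 𝔟 ⊔ 𝔠 ⊔ sat J P)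
    (hb : ∃ b ∈ 𝔟, ¬ InSat J P b) (hc : ∃ c ∈ 𝔠, ¬ InSat J P c) : ¬ E P 2 J := by
  rintro ⟨y, hy, hyreg, z, hz, hzreg, -⟩
  have hrad : ∀ a, InSat J P (a ^ 2) → InSat J P a := by
    rintro a ⟨s, hs, h⟩
    refine ⟨s, hs, ?_⟩
    have h1 : (s * a) ^ 2 ∈ J := by
      have e : (s * a) ^ 2 = s * (s * a ^ 2) := by ring
      rw [e]; exact J.mul_mem_left _ h
    exact hJ ⟨2, h1⟩
  have dec : ∀ x ∈ P, ∃ x1 ∈ 𝔟, ∃ x2 ∈ 𝔠, x - x1 - x2 ∈ sat J P := by
    intro x hx
    obtain ⟨w, hw, j, hj, rfl⟩ := Submodule.mem_sup.1 (hP hx)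
    obtain ⟨x1, h1, x2, h2, rfl⟩ := Submodule.mem_sup.1 hw
    refine ⟨x1, h1, x2, h2, ?_⟩
    have e : x1 + x2 + j - x1 - x2 = j := by ring
    rw [e]; exact hj
  obtain ⟨y1, hy1, y2, hy2, hy3⟩ := dec y hy
  obtain ⟨z1, hz1, z2, hz2, hz3⟩ := dec z hz
  set T := sat J P with hT
  have m1 : y1 * z2 ∈ T := hbc _ hy1 _ hz2
  have m2 : z1 * y2 ∈ T := hbc _ hz1 _ hy2
  have m3 : y1 * y2 ∈ T := hbc _ hy1 _ hy2
  have h1 : z * y1 - y * z1 ∈ T := by
    have e : z * y1 - y * z1 = (z - z1 - z2) * y1 + y1 * z2 - (y - y1 - y2) * z1 - z1 * y2 := by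
      ring
    rw [e]
    exact T.sub_mem (T.sub_mem (T.add_mem (T.mul_mem_right _ hz3) m1) (T.mul_mem_right _ hy3)) m2
  have h2 : InSat (J ⊔ Ideal.span {y}) P (z * y1) := by
    obtain ⟨s, hs, h⟩ := mem_sat.1 h1
    refine ⟨s, hs, ?_⟩
    have e : s * (z * y1) = s * (z * y1 - y * z1) + (s * z1) * y := by ring
    rw [e]
    exact Submodule.add_mem_sup h (Ideal.mul_mem_left _ _ (Ideal.mem_span_singleton_self y))
  obtain ⟨s, hs, h3⟩ := hzreg _ h2
  obtain ⟨j, hj, w, hw, h4⟩ := Submodule.mem_sup.1 h3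
  obtain ⟨c, rfl⟩ := Ideal.mem_span_singleton'.1 hw
  have hjT : j ∈ T := inSat_of_mem hj
  -- `(s - c) y1 ≡ c y2`
  have h5 : (s - c) * y1 - c * y2 ∈ T := by
    have e : (s - c) * y1 - c * y2 = j + c * (y - y1 - y2) := by
      have : s * y1 = j + c * y := h4.symm
      linear_combination this
    rw [e]
    exact T.add_mem hjT (T.mul_mem_left _ hy3)
  have h6 : (s - c) * y1 ∈ T := by
    refine hrad _ ?_
    have e : ((s - c) * y1) ^ 2 = ((s - c) * y1) * ((s - c) * y1 - c * y2) +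
        (s - c) * c * (y1 * y2) := by ring
    have : ((s - c) * y1) ^ 2 ∈ T := by
      rw [e]; exact T.add_mem (T.mul_mem_left _ h5) (T.mul_mem_left _ m3)
    exact this
  have h7 : c * y2 ∈ T := by
    have := T.sub_mem h6 h5
    rwa [sub_sub_cancel] at this
  by_cases hcP : c ∈ P
  · have hsc : s - c ∉ P := fun h => hs (by
      have := P.add_mem h hcP
      rwa [sub_add_cancel] at this)
    have h8 : y1 ∈ T := inSat_of_mul hsc h6
    obtain ⟨b, hb, hb'⟩ := hb
    apply hb'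
    refine hyreg _ ?_
    have e : y * b = (y - y1 - y2) * b + y1 * b + b * y2 := by ring
    have : y * b ∈ T := by
      rw [e]
      exact T.add_mem (T.add_mem (T.mul_mem_right _ hy3) (T.mul_mem_right _ h8)) (hbc _ hb _ hy2)
    exact this
  · have h8 : y2 ∈ T := inSat_of_mul hcP h7
    obtain ⟨b, hb, hb'⟩ := hc
    apply hb'
    refine hyreg _ ?_
    have e : y * b = (y - y1 - y2) * b + y2 * b + y1 * b := by ring
    have : y * b ∈ T := by
      rw [e]
      exact T.add_mem (T.add_mem (T.mul_mem_right _ hy3) (T.mul_mem_right _ h8)) (hbc _ hy1 _ hb)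
    exact this

end general

variable {V : Type u} [DecidableEq V] [Fintype V] {k : Type u} [Field k]

lemma mI_radical {Γ : Set (Finset V)} (hΓ : Down Γ) : (mI k Γ).IsRadical := by
  rintro f ⟨n, hf⟩
  rw [mem_mI hΓ]
  intro m hm hmΓ
  haveI := mI_sx_prime (k := k) m.support
  have h1 : f ^ n ∈ mI k (sx m.support) := mI_mono (fun τ h => hΓ _ hmΓ _ h) hf
  have h2 := ‹(mI k (sx m.support)).IsPrime›.mem_of_pow_mem _ h1
  rw [mem_mI (sx_down _)] at h2
  exact h2 m hm (Finset.Subset.refl _)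

/-- Facets. -/
def Facet (Δ : Set (Finset V)) (F : Finset V) : Prop := F ∈ Δ ∧ ∀ F' ∈ Δ, F ⊆ F' → F' = F

lemma exists_facet {Δ : Set (Finset V)} {τ : Finset V} (h : τ ∈ Δ) : ∃ F, Facet Δ F ∧ τ ⊆ F := by
  classical
  obtain ⟨F, hF, hmax⟩ := Finset.exists_max_image
    (Finset.univ.filter fun F : Finset V => F ∈ Δ ∧ τ ⊆ F) Finset.card
    ⟨τ, by simp [h]⟩
  simp only [Finset.mem_filter, Finset.mem_univ, true_and] at hF hmax
  refine ⟨F, ⟨hF.1, fun F' hF' hFF' => ?_⟩, hF.2⟩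
  exact (Finset.eq_of_subset_of_card_le hFF' (hmax F' ⟨hF', hF.2.trans hFF'⟩)).symm

/-- `(S₂)` implies purity. -/
theorem pure {Δ : Set (Finset V)} (hΔ : Down Δ)
    (hS : ∀ (P : Ideal (MvPolynomial V k)) [P.IsPrime], mI k Δ ≤ P → ((2 : ℕ) : ℕ∞) ≤ hq (mI k Δ) P →
      E P 2 (mI k Δ)) {F F' : Finset V} (hF : Facet Δ F) (hF' : Facet Δ F') :
    F.card = F'.card := by
  classical
  by_contra hne
  -- choose a pair of facets of different cardinality with the largest intersection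
  obtain ⟨⟨A, B⟩, hAB, hmax⟩ := Finset.exists_max_image
    (Finset.univ.filter fun p : Finset V × Finset V => Facet Δ p.1 ∧ Facet Δ p.2 ∧
      p.2.card < p.1.card) (fun p => (p.1 ∩ p.2).card) (by
      rcases lt_or_gt_of_ne hne with h | h
      · exact ⟨(F', F), by simp [hF, hF', h]⟩
      · exact ⟨(F, F'), by simp [hF, hF', h]⟩)
  simp only [Finset.mem_filter, Finset.mem_univ, true_and] at hAB hmax
  obtain ⟨hA, hB, hlt⟩ := hAB
  have hmax' : ∀ C D, Facet Δ C → Facet Δ D → C.card ≠ D.card → (C ∩ D).card ≤ (A ∩ B).card := by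
    intro C D hC hD hCD
    rcases lt_or_gt_of_ne hCD with h | h
    · rw [Finset.inter_comm C D]; exact hmax (D, C) ⟨hD, hC, h⟩
    · exact hmax (C, D) ⟨hC, hD, h⟩
  set G := A ∩ B with hG
  have hBA : ¬ B ⊆ A := fun h => by
    have := hB.2 A hA.1 h
    rw [this] at hlt; exact lt_irrefl _ hlt
  have hABn : ¬ A ⊆ B := fun h => absurd (Finset.card_le_card h) (not_le_of_gt hlt)
  have hGB : G.card < B.card := Finset.card_lt_card ⟨Finset.inter_subset_right, fun h =>
    hBA (h.trans Finset.inter_subset_left)⟩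
  haveI := mI_sx_prime (k := k) G
  have hfp : fp (mI k (sx G)) = G := fp_sx G
  have hGΔ : G ∈ Δ := hΔ _ hA.1 _ Finset.inter_subset_left
  have hle : mI k Δ ≤ mI k (sx G) := mI_mono fun τ h => hΔ _ hGΔ _ h
  have hht : ((2 : ℕ) : ℕ∞) ≤ hq (mI k Δ) (mI k (sx G)) := by
    have h1 := height_le hΔ hA.1 (P := mI k (sx G)) (by
      rw [hfp]; exact Finset.inter_subset_left)
    have h2 := (height_sx (k := k) G).trans h1
    have h3 : Fintype.card V - G.card = 2 + (Fintype.card V - A.card) + (A.card - G.card - 2) := by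
      have := Finset.card_le_univ A
      omega
    rw [h3] at h2
    have h4 : ((2 + (Fintype.card V - A.card) : ℕ) : ℕ∞) ≤
        ((2 + (Fintype.card V - A.card) + (A.card - G.card - 2) : ℕ) : ℕ∞) := by
      norm_cast; omega
    have h5 := h4.trans h2
    push_cast at h5
    exact (ENat.add_le_add_iff_right (ENat.natCast_ne_top _)).1 h5
  have hE := hS (mI k (sx G)) hle hht
  -- the two groups of vertices
  set Va : Set V := {u | u ∉ G ∧ ∃ C, Facet Δ C ∧ insert u G ⊆ C ∧ C.card = A.card} with hVa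
  set Vb : Set V := {u | u ∉ G ∧ ∃ C, Facet Δ C ∧ insert u G ⊆ C ∧ C.card ≠ A.card} with hVb
  have hbig : ∀ {u C D}, u ∉ G → Facet Δ C → Facet Δ D → C.card ≠ D.card →
      insert u G ⊆ C → insert u G ⊆ D → False := by
    intro u C D hu hC hD hCD h1 h2
    have h3 := hmax' C D hC hD hCD
    have h4 : (insert u G).card ≤ (C ∩ D).card :=
      Finset.card_le_card (Finset.subset_inter h1 h2)
    rw [Finset.card_insert_of_notMem hu] at h4
    omega
  have hsat : ∀ τ : Finset V, τ ∪ G ∉ Δ → InSat (mI k Δ) (mI k (sx G)) (xm k τ) := by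
    intro τ hτ
    refine ⟨xm k G, ?_, ?_⟩
    · rw [xm_mem_prime]
      push Not
      intro v hv
      rw [← mem_fp, hfp]; exact hv
    · rw [mul_mem_mI hΔ]
      exact xm_mem hτ
  have hXx : ∀ u : V, (X u : MvPolynomial V k) = xm k {u} := by
    intro u; unfold xm; simp
  have hnot : ∀ u C, Facet Δ C → insert u G ⊆ C → ¬ InSat (mI k Δ) (mI k (sx G)) (X u) := by
    rintro u C hC huC ⟨s, hs, h⟩
    haveI := mI_sx_prime (k := k) C
    have h1 : s * X u ∈ mI k (sx C) := mI_mono (fun τ h => hΔ _ hC.1 _ h) h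
    rcases ‹(mI k (sx C)).IsPrime›.mem_or_mem h1 with h2 | h2
    · apply hs
      exact mI_mono (fun τ h => Finset.Subset.trans h
        ((Finset.subset_insert u G).trans huC)) h2
    · have h3 : u ∈ fp (mI k (sx C)) := by
        rw [fp_sx]; exact huC (Finset.mem_insert_self _ _)
      exact mem_fp.1 h3 h2
  refine not_E_two (mI_radical hΔ) (𝔟 := Ideal.span (X '' Va)) (𝔠 := Ideal.span (X '' Vb))
    ?_ ?_ ?_ ?_ hE
  · intro b hb c hc
    have h1 : Ideal.span (X '' Va : Set (MvPolynomial V k)) * Ideal.span (X '' Vb) ≤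
        sat (mI k Δ) (mI k (sx G)) := by
      rw [Ideal.span_mul_span', Ideal.span_le]
      rintro _ ⟨_, ⟨u, hu, rfl⟩, _, ⟨w, hw, rfl⟩, rfl⟩
      show InSat _ _ (X u * X w)
      have huw : u ≠ w := by
        rintro rfl
        obtain ⟨hu1, C, hC, hC1, hC2⟩ := hu
        obtain ⟨-, D, hD, hD1, hD2⟩ := hw
        exact hbig hu1 hC hD (fun h => hD2 (by rw [← h, hC2])) hC1 hD1
      have e : (X u * X w : MvPolynomial V k) = xm k {u, w} := by
        unfold xm; rw [Finset.prod_pair huw]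
      rw [e]
      refine hsat _ fun hmem => ?_
      obtain ⟨M, hM, hsub⟩ := exists_facet hmem
      have hGM : G ⊆ M := Finset.subset_union_right.trans hsub
      have huM : insert u G ⊆ M := Finset.insert_subset
        (hsub (Finset.mem_union_left _ (by simp))) hGM
      have hwM : insert w G ⊆ M := Finset.insert_subset
        (hsub (Finset.mem_union_left _ (by simp))) hGM
      obtain ⟨hu1, C, hC, hC1, hC2⟩ := hu
      obtain ⟨hw1, D, hD, hD1, hD2⟩ := hw
      by_cases hMA : M.card = A.card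
      · exact hbig hw1 hM hD (fun h => hD2 (by rw [← h, hMA])) hwM hD1
      · exact hbig hu1 hM hC (fun h => hMA (by rw [h, hC2])) huM hC1
    exact h1 (Ideal.mul_mem_mul hb hc)
  · conv_lhs => rw [mI_sx]
    rw [Ideal.span_le]
    rintro _ ⟨u, hu, rfl⟩
    have hu' : u ∉ G := hu
    by_cases hin : {u} ∪ G ∈ Δ
    · obtain ⟨M, hM, hsub⟩ := exists_facet hin
      have huM : insert u G ⊆ M := by
        rwa [← Finset.insert_eq] at hsub
      refine Ideal.mem_sup_left ?_
      by_cases hMA : M.card = A.card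
      · exact Ideal.mem_sup_left (Ideal.subset_span ⟨u, ⟨hu', M, hM, huM, hMA⟩, rfl⟩)
      · exact Ideal.mem_sup_right (Ideal.subset_span ⟨u, ⟨hu', M, hM, huM, hMA⟩, rfl⟩)
    · refine Ideal.mem_sup_right ?_
      rw [hXx]
      exact hsat _ hin
  · obtain ⟨u, huA, huB⟩ := Finset.not_subset.1 hABn
    have huG : u ∉ G := fun h => huB (Finset.inter_subset_right h)
    have hsub : insert u G ⊆ A := Finset.insert_subset huA Finset.inter_subset_left
    exact ⟨X u, Ideal.subset_span ⟨u, ⟨huG, A, hA, hsub, rfl⟩, rfl⟩, hnot u A hA hsub⟩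
  · obtain ⟨u, huB, huA⟩ := Finset.not_subset.1 hBA
    have huG : u ∉ G := fun h => huA (Finset.inter_subset_left h)
    have hsub : insert u G ⊆ B := Finset.insert_subset huB Finset.inter_subset_right
    exact ⟨X u, Ideal.subset_span ⟨u, ⟨huG, B, hB, hsub, hlt.ne⟩, rfl⟩, hnot u B hB hsub⟩

end Q37.Serre
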