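import Pool.Agent.Q37.Serre.Step3
import Pool.Agent.Q37.Serre.Rad

/-!
Serre's condition after removing an excellent set of faces.
-/

set_option linter.unusedSectionVars false
set_option linter.style.haveILetI false

open MvPolynomial IsLocalRing

universe u

namespace Q37.Serre

section conv

variable {A : Type u} [CommRing A]

lemma weak_bot (rs : List A) : RingTheory.Sequence.IsWeaklyRegular A rs ↔ RegL ⊥ rs := by
  rw [← weak_iff, (Submodule.quotEquivOfEqBot (⊥ : Ideal A) rfl).isWeaklyRegular_congr]

/-- Depth of a local ring. -/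
noncomputable def depth (A : Type u) [CommRing A] [IsLocalRing A] : ℕ∞ :=
  ⨆ rs : {rs : List A // (∀ r ∈ rs, r ∈ maximalIdeal A) ∧ RingTheory.Sequence.IsRegular A rs},
    (rs.1.length : ℕ∞)

lemma le_depth_iff [IsLocalRing A] [IsNoetherianRing A] {n : ℕ} :
    (n : ℕ∞) ≤ depth A ↔ D (maximalIdeal A) n (⊥ : Ideal A) := by
  constructor
  · intro h
    have h1 : ∃ rs : {rs : List A // (∀ r ∈ rs, r ∈ maximalIdeal A) ∧
        RingTheory.Sequence.IsRegular A rs}, n ≤ rs.1.length := by
      by_contra hcon
      push Not at hcon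
      cases n with
      | zero => exact absurd (hcon ⟨[], by simp, RingTheory.Sequence.IsRegular.nil A A⟩) (by simp)
      | succ n =>
        have h2 : depth A ≤ n := by
          refine iSup_le fun rs => ?_
          have := hcon rs
          norm_cast; omega
        have h3 := h.trans h2
        norm_cast at h3
        omega
    obtain ⟨⟨rs, h1, h2⟩, h3⟩ := h1
    refine D.mono h3 (D_iff.2 ⟨rs, rfl, h1, ?_⟩)
    exact (weak_bot rs).1 h2.toIsWeaklyRegular
  · intro h
    obtain ⟨rs, h1, h2, h3⟩ := D_iff.1 h
    have h4 : RingTheory.Sequence.IsRegular A rs :=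
      (IsLocalRing.isRegular_iff_isWeaklyRegular_of_subset_maximalIdeal h2).2 ((weak_bot rs).2 h3)
    have := le_iSup (fun rs : {rs : List A // (∀ r ∈ rs, r ∈ maximalIdeal A) ∧
      RingTheory.Sequence.IsRegular A rs} => (rs.1.length : ℕ∞)) ⟨rs, h2, h4⟩
    simp only [h1] at this
    exact this

variable {S : Type u} [CommRing S] [IsNoetherianRing S] {I : Ideal S}

lemma le_depth_quot {p : Ideal (S ⧸ I)} [p.IsPrime] {n : ℕ} :
    (n : ℕ∞) ≤ depth (Localization.AtPrime p) ↔ E (p.comap (Ideal.Quotient.mk I)) n I := by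
  haveI : IsNoetherianRing (Localization.AtPrime p) :=
    IsLocalization.isNoetherianRing p.primeCompl _ inferInstance
  rw [le_depth_iff]
  have h1 := E_comap (Ideal.Quotient.mk I) Ideal.Quotient.mk_surjective (P := p) (n := n)
    (J := (⊥ : Ideal (S ⧸ I)))
  rw [← RingHom.ker_eq_comap_bot, Ideal.mk_ker] at h1
  have h2 := E_iff_D (Localization.AtPrime p) (P := p) (n := n) (J := (⊥ : Ideal (S ⧸ I)))
  rw [Ideal.map_bot] at h2
  exact (h1.trans h2).symm

lemma comap_hq {p : Ideal (S ⧸ I)} [p.IsPrime] :
    hq I (p.comap (Ideal.Quotient.mk I)) = p.height := by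
  unfold hq
  rw [Ideal.map_comap_of_surjective _ Ideal.Quotient.mk_surjective]

end conv

/-- Serre's condition `(S_ℓ)`. -/
def SerreS (ℓ : ℕ) (R : Type u) [CommRing R] : Prop :=
  ∀ (p : Ideal R) [p.IsPrime], min (ℓ : WithBot ℕ∞) (ringKrullDim (Localization.AtPrime p)) ≤
    (depth (Localization.AtPrime p) : WithBot ℕ∞)

variable {V : Type u} [DecidableEq V] [Fintype V] {k : Type u} [Field k]

theorem serre_iff {ℓ : ℕ} {I : Ideal (MvPolynomial V k)} :
    SerreS ℓ (MvPolynomial V k ⧸ I) ↔ SE ℓ I := by
  constructor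
  · intro h P _ hP n hn hht
    haveI := map_prime hP
    have h1 := h (P.map (Ideal.Quotient.mk I))
    rw [IsLocalization.AtPrime.ringKrullDim_eq_height (P.map (Ideal.Quotient.mk I))] at h1
    have h2 : (n : WithBot ℕ∞) ≤ (depth (Localization.AtPrime (P.map (Ideal.Quotient.mk I))) :
        WithBot ℕ∞) := by
      refine le_trans (le_min ?_ ?_) h1
      · exact_mod_cast hn
      · have : ((n : ℕ∞) : WithBot ℕ∞) ≤ (hq I P : WithBot ℕ∞) := by exact_mod_cast hht
        exact this
    have h3 : (n : ℕ∞) ≤ depth (Localization.AtPrime (P.map (Ideal.Quotient.mk I))) := by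
      exact_mod_cast h2
    rw [le_depth_quot] at h3
    have h4 : (P.map (Ideal.Quotient.mk I)).comap (Ideal.Quotient.mk I) = P := by
      rw [Ideal.comap_map_of_surjective _ Ideal.Quotient.mk_surjective,
        ← RingHom.ker_eq_comap_bot, Ideal.mk_ker, sup_eq_left.2 hP]
    rwa [h4] at h3
  · intro h p _
    rw [IsLocalization.AtPrime.ringKrullDim_eq_height p]
    have hmin : ∃ n : ℕ, (n : ℕ∞) = min (ℓ : ℕ∞) p.height := by
      have : min (ℓ : ℕ∞) p.height ≠ ⊤ :=
        ne_top_of_le_ne_top (ENat.natCast_ne_top ℓ) (min_le_left _ _)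
      exact ⟨_, ENat.natCast_toNat this⟩
    obtain ⟨n, hn⟩ := hmin
    have hIP : I ≤ p.comap (Ideal.Quotient.mk I) := by
      intro x hx
      rw [Ideal.mem_comap, Ideal.Quotient.eq_zero_iff_mem.2 hx]
      exact Ideal.zero_mem _
    have h1 : E (p.comap (Ideal.Quotient.mk I)) n I := by
      refine h _ hIP n ?_ ?_
      · have : (n : ℕ∞) ≤ ℓ := by rw [hn]; exact min_le_left _ _
        exact_mod_cast this
      · rw [comap_hq, hn]; exact min_le_right _ _
    rw [← le_depth_quot, hn] at h1
    have h2 : min (ℓ : WithBot ℕ∞) (p.height : WithBot ℕ∞) =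
        ((min (ℓ : ℕ∞) p.height : ℕ∞) : WithBot ℕ∞) := by
      rw [WithBot.coe_min]; rfl
    rw [h2]
    exact_mod_cast h1

theorem main {Δ : Set (Finset V)} (hΔ : Down Δ) {A : Set (Finset V)}
    (hind : ∀ σ ∈ A, ∀ τ ∈ A, σ ≠ τ → σ ∪ τ ∉ Δ)
    (hexc : ∀ F, Facet Δ F → ∃ σ ∈ A, σ ⊆ F) {ℓ : ℕ} (hS : SE ℓ (mI k Δ)) :
    SE ℓ (mI k (del Δ A)) := by
  classical
  intro P _ hP n hn hht
  have hdel : Down (del Δ A) := del_down hΔ A
  have hle : mI k Δ ≤ mI k (del Δ A) := mI_mono fun τ h => h.1
  match n, hn, hht with
  | 0, _, _ => trivial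
  | 1, _, hht =>
    obtain ⟨Q, hQ, h1, h2, h3⟩ := exists_bottom hP hht
    refine E_one (mI_radical hdel) h1 (lt_of_le_of_ne h2 ?_)
    rintro rfl
    have h4 : Q.height ≠ ⊤ := Ideal.height_ne_top_of_isPrime
    have h5 : Q.height + 1 ≤ Q.height + 0 := by rw [add_zero]; exact_mod_cast h3
    have h6 := (ENat.add_le_add_iff_left h4).1 h5
    exact absurd h6 (by simp)
  | n + 2, hn, hht =>
    have hpure : ∀ {F F' : Finset V}, Facet Δ F → Facet Δ F' → F.card = F'.card := fun hF hF' =>
      pure (k := k) hΔ (fun P _ hP h => hS P hP 2 (by omega) h) hF hF'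
    have hfpA : fp P ∈ del Δ A := (mI_le_iff hdel).1 hP
    obtain ⟨F0, hF0, hsub0⟩ := exists_facet hfpA.1
    have hcard : ∀ τ ∈ del Δ A, τ.card ≤ F0.card - 1 := by
      intro τ hτ
      obtain ⟨F, hF, hsub⟩ := exists_facet hτ.1
      have h1 : τ ≠ F := by
        rintro rfl
        obtain ⟨σ, hσ, hσF⟩ := hexc τ hF
        exact hτ.2 σ hσ hσF
      have h2 := Finset.card_lt_card (Finset.ssubset_iff_subset_ne.2 ⟨hsub, h1⟩)
      rw [hpure hF hF0] at h2
      omega
    have hpos : 1 ≤ F0.card := by
      obtain ⟨σ, hσ, hσF⟩ := hexc F0 hF0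
      rcases Nat.eq_zero_or_pos F0.card with h | h
      · rw [Finset.card_eq_zero] at h
        subst h
        have : σ ⊆ fp P := by
          rw [Finset.subset_empty.1 hσF]; exact Finset.empty_subset _
        exact absurd this (hfpA.2 σ hσ)
      · exact h
    have hN : F0.card ≤ Fintype.card V := Finset.card_le_univ _
    have hheight := height_ge hdel hcard hP hht
    have claim : ∀ A' : Finset (Finset V), (A' : Set (Finset V)) ⊆ A →
        E P (n + 2) (mI k (del Δ (A' : Set (Finset V)))) := by
      intro A'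
      induction A' using Finset.induction_on with
      | empty =>
        intro _
        have e : del Δ ((∅ : Finset (Finset V)) : Set (Finset V)) = Δ := by
          ext τ; simp [del]
        rw [e]
        exact hS P (hle.trans hP) _ hn (hht.trans (hq_anti hle hP))
      | insert σ A' hσA' ih =>
        intro hsub
        rw [Finset.coe_insert] at hsub ⊢
        have hσ : σ ∈ A := hsub (Set.mem_insert _ _)
        have ih' := ih ((Set.subset_insert _ _).trans hsub)
        have hxP : xm k σ ∈ P := hP (xm_mem fun h => h.2 σ hσ (Finset.Subset.refl _))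
        have hstar : St (del Δ (A' : Set (Finset V))) σ = St Δ σ := by
          refine St_del hΔ fun σ' hσ' => ?_
          refine hind σ' (hsub (Set.mem_insert_of_mem _ hσ')) σ hσ ?_
          rintro rfl
          exact hσA' hσ'
        haveI : IsNoetherianRing (Localization.AtPrime P) :=
          IsLocalization.isNoetherianRing P.primeCompl _ inferInstance
        rw [← mI_sup, E_iff_D (Localization.AtPrime P), Ideal.map_sup, Ideal.map_span,
          Set.image_singleton]
        refine D.depth_lemma (𝔟 := (mI k (St Δ σ)).map (algebraMap _ (Localization.AtPrime P)))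
          ((IsLocalization.AtPrime.to_map_mem_maximal_iff _ P _).2 hxP) ?_
          ((E_iff_D (Localization.AtPrime P)).1 ih') ?_
        · intro a
          obtain ⟨⟨b, s⟩, hb⟩ := IsLocalization.surj P.primeCompl a
          have hs := IsLocalization.map_units (Localization.AtPrime P) s
          simp only at hb
          have h1 : ∀ J : Ideal (MvPolynomial V k),
              a ∈ J.map (algebraMap _ (Localization.AtPrime P)) ↔ InSat J P b := by
            intro J
            rw [← mem_map_iff (Localization.AtPrime P), ← hb]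
            exact (Ideal.mul_unit_mem_iff_mem _ hs).symm
          have h2 : ∀ J : Ideal (MvPolynomial V k),
              algebraMap _ (Localization.AtPrime P) (xm k σ) * a ∈
                J.map (algebraMap _ (Localization.AtPrime P)) ↔ InSat J P (xm k σ * b) := by
            intro J
            rw [← mem_map_iff (Localization.AtPrime P), map_mul, ← hb, ← mul_assoc]
            exact (Ideal.mul_unit_mem_iff_mem _ hs).symm
          rw [h1, h2]
          constructor
          · rintro ⟨t, ht, h⟩
            refine ⟨t, ht, ?_⟩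
            rw [mul_left_comm, mul_mem_mI (del_down hΔ _), hstar]
            exact h
          · rintro ⟨t, ht, h⟩
            refine ⟨t, ht, ?_⟩
            rw [mul_left_comm, mul_mem_mI (del_down hΔ _), hstar] at h
            exact h
        · by_cases hst : mI k (St Δ σ) ≤ P
          · right
            refine (E_iff_D (Localization.AtPrime P) (P := P)).1 ?_
            obtain ⟨v, hv, hvP⟩ := xm_mem_prime.1 hxP
            have h1 : fp P ∪ σ ∈ Δ := (mI_le_iff (St_down hΔ σ)).1 hst
            obtain ⟨F, hF, hF1⟩ := exists_facet h1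
            refine key hΔ hS hv hvP hF.1 hF1 hn ?_
            refine le_trans ?_ hheight
            have := hpure hF hF0
            norm_cast
            omega
          · left
            obtain ⟨a, ha, haP⟩ := SetLike.not_le_iff_exists.1 hst
            refine Ideal.eq_top_of_isUnit_mem _ (Ideal.mem_map_of_mem _ ha) ?_
            exact IsLocalization.map_units (Localization.AtPrime P) (⟨a, haP⟩ : P.primeCompl)
    have := claim (Set.toFinite A).toFinset (by rw [Set.Finite.coe_toFinset])
    rwa [Set.Finite.coe_toFinset] at this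

end Q37.Serre
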