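import Pool.Agent.Q37.Serre.Elem

/-!
Regular sequences and polynomial rings in one variable.
-/

open IsLocalRing Polynomial

universe u

namespace Q37.Serre

variable {R : Type u} [CommRing R]

lemma inSat_mul_left {J P : Ideal R} {a : R} (r : R) (h : InSat J P a) : InSat J P (r * a) := by
  obtain ⟨s, hs, h⟩ := h
  refine ⟨s, hs, ?_⟩
  have e : s * (r * a) = r * (s * a) := by ring
  rw [e]; exact J.mul_mem_left _ h

lemma inSat_add {J P : Ideal R} [P.IsPrime] {a b : R} (h : InSat J P a) (h' : InSat J P b) :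
    InSat J P (a + b) := by
  obtain ⟨s, hs, h⟩ := h
  obtain ⟨t, ht, h'⟩ := h'
  refine ⟨s * t, fun hst => ?_, ?_⟩
  · rcases ‹P.IsPrime›.mem_or_mem hst with h | h
    · exact hs h
    · exact ht h
  · have e : s * t * (a + b) = t * (s * a) + s * (t * b) := by ring
    rw [e]; exact J.add_mem (J.mul_mem_left _ h) (J.mul_mem_left _ h')

lemma inSat_of_mul {J P : Ideal R} [P.IsPrime] {a s : R} (hs : s ∉ P) (h : InSat J P (s * a)) :
    InSat J P a := by
  obtain ⟨t, ht, h⟩ := h
  refine ⟨t * s, fun hst => ?_, by rwa [mul_assoc]⟩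
  rcases ‹P.IsPrime›.mem_or_mem hst with h | h
  · exact ht h
  · exact hs h

lemma inSat_of_mem {J P : Ideal R} [P.IsPrime] {a : R} (h : a ∈ J) : InSat J P a :=
  ⟨1, fun h1 => Ideal.IsPrime.ne_top' ((Ideal.eq_top_iff_one P).2 h1), by rwa [one_mul]⟩

/-- The saturation. -/
def sat (J P : Ideal R) [P.IsPrime] : Ideal R where
  carrier := {a | InSat J P a}
  add_mem' := inSat_add
  zero_mem' := inSat_of_mem J.zero_mem
  smul_mem' r _ h := inSat_mul_left r h

lemma mem_sat {J P : Ideal R} [P.IsPrime] {a : R} : a ∈ sat J P ↔ InSat J P a := Iff.rfl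

lemma inSat_finite {J P : Ideal R} [P.IsPrime] {ι : Type*} (s : Finset ι) (f : ι → R)
    (h : ∀ i ∈ s, InSat J P (f i)) : ∃ t, t ∉ P ∧ ∀ i ∈ s, t * f i ∈ J := by
  classical
  induction s using Finset.induction_on with
  | empty =>
    exact ⟨1, fun h1 => Ideal.IsPrime.ne_top' ((Ideal.eq_top_iff_one P).2 h1), by simp⟩
  | insert i s _ ih =>
    obtain ⟨t, ht, h1⟩ := ih fun j hj => h j (Finset.mem_insert_of_mem hj)
    obtain ⟨r, hr, h2⟩ := h i (Finset.mem_insert_self _ _)
    refine ⟨t * r, fun hst => ?_, fun j hj => ?_⟩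
    · rcases ‹P.IsPrime›.mem_or_mem hst with h | h
      · exact ht h
      · exact hr h
    · rcases Finset.mem_insert.1 hj with rfl | hj
      · rw [mul_assoc]; exact J.mul_mem_left _ h2
      · rw [mul_comm t r, mul_assoc]; exact J.mul_mem_left _ (h1 j hj)

lemma inSat_C {J P : Ideal R} [P.IsPrime] {a : R} :
    InSat (J.map (C : R →+* R[X])) (P.map (C : R →+* R[X])) (C a) ↔ InSat J P a := by
  constructor
  · rintro ⟨t, ht, h⟩
    rw [Ideal.mem_map_C_iff] at ht h
    push Not at ht
    obtain ⟨n, hn⟩ := ht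
    refine ⟨t.coeff n, hn, ?_⟩
    have := h n
    rwa [coeff_mul_C] at this
  · rintro ⟨t, ht, h⟩
    refine ⟨C t, ?_, ?_⟩
    · rw [Ideal.mem_map_C_iff]
      intro h1
      have := h1 0
      rw [coeff_C_zero] at this
      exact ht this
    · rw [← map_mul]; exact Ideal.mem_map_of_mem _ h

lemma exchange [IsNoetherianRing R] {J P : Ideal R} [P.IsPrime] {y : R} (hy : y ∈ P)
    (hreg : ∀ a, InSat J P (y * a) → InSat J P a) {n : ℕ} (h : E P (n + 1) J) :
    E P n (J ⊔ Ideal.span {y}) := by
  haveI : IsNoetherianRing (Localization.AtPrime P) :=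
    IsLocalization.isNoetherianRing P.primeCompl _ inferInstance
  rw [E_iff_D (Localization.AtPrime P)] at h ⊢
  rw [Ideal.map_sup, Ideal.map_span, Set.image_singleton]
  exact D.exchange ((IsLocalization.AtPrime.to_map_mem_maximal_iff _ P y).2 hy)
    ((reg_iff _).1 hreg) h

lemma reg_C {J P : Ideal R} [P.IsPrime] {y : R}
    (hreg : ∀ a, InSat J P (y * a) → InSat J P a) (b : R[X])
    (h : InSat (J.map (C : R →+* R[X])) (P.map (C : R →+* R[X])) (C y * b)) :
    InSat (J.map (C : R →+* R[X])) (P.map (C : R →+* R[X])) b := by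
  obtain ⟨s, hs, h⟩ := h
  set q := Ideal.Quotient.mk (sat J P) with hq
  have hs' : s.map q ∈ nonZeroDivisors (R ⧸ sat J P)[X] := by
    rw [Ideal.mem_map_C_iff] at hs
    push Not at hs
    obtain ⟨n, hn⟩ := hs
    refine mem_nonzeroDivisors_of_coeff_mem n ?_
    rw [coeff_map]
    rw [mem_nonZeroDivisors_iff_right]
    intro x hx
    obtain ⟨x, rfl⟩ := Ideal.Quotient.mk_surjective x
    rw [← map_mul, Ideal.Quotient.eq_zero_iff_mem] at hx
    rw [Ideal.Quotient.eq_zero_iff_mem]
    rw [mul_comm] at hx
    exact inSat_of_mul hn hx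
  have h1 : (C y * b).map q = 0 := by
    have h2 : (C y * b).map q * s.map q = 0 := by
      rw [← Polynomial.map_mul]
      ext n
      rw [coeff_map, coeff_zero, Ideal.Quotient.eq_zero_iff_mem]
      rw [Ideal.mem_map_C_iff] at h
      rw [mul_comm]
      exact inSat_of_mem (h n)
    exact (mem_nonZeroDivisors_iff_right.1 hs') _ h2
  have h3 : ∀ n, InSat J P (b.coeff n) := by
    intro n
    refine hreg _ ?_
    have h4 : ((C y * b).map q).coeff n = 0 := by rw [h1, coeff_zero]
    rw [coeff_map, Ideal.Quotient.eq_zero_iff_mem, coeff_C_mul] at h4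
    exact h4
  obtain ⟨t, ht, h5⟩ := inSat_finite b.support (fun n => b.coeff n) (fun n _ => h3 n)
  refine ⟨C t, ?_, ?_⟩
  · rw [Ideal.mem_map_C_iff]
    intro h1
    have := h1 0
    rw [coeff_C_zero] at this
    exact ht this
  · rw [Ideal.mem_map_C_iff]
    intro n
    rw [coeff_C_mul]
    by_cases hn : n ∈ b.support
    · exact h5 n hn
    · rw [notMem_support_iff.1 hn, mul_zero]; exact J.zero_mem

/-- Descent. -/
theorem descent [IsNoetherianRing R] {P : Ideal R} [P.IsPrime] {n : ℕ} {J : Ideal R}
    (h : E (P.map (C : R →+* R[X])) n (J.map C)) : E P n J := by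
  induction n generalizing J with
  | zero => trivial
  | succ n ih =>
    haveI : IsNoetherianRing (Localization.AtPrime P) :=
      IsLocalization.isNoetherianRing P.primeCompl _ inferInstance
    haveI : (P.map (C : R →+* R[X])).IsPrime := Ideal.isPrime_map_C_of_isPrime
    have key : E P 1 J := by
      rcases exists_regular_or_socle (J.map (algebraMap R (Localization.AtPrime P))) with h1 | h1
      · obtain ⟨y, hy, h1⟩ := h1
        rw [E_iff_D (Localization.AtPrime P)]
        exact ⟨y, hy, h1, trivial⟩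
      · exfalso
        obtain ⟨a, ha, h1⟩ := h1
        obtain ⟨⟨b, s⟩, hb⟩ := IsLocalization.surj P.primeCompl a
        have hs := IsLocalization.map_units (Localization.AtPrime P) s
        simp only at hb
        have hb1 : ¬ InSat J P b := by
          intro h2
          rw [← mem_map_iff (Localization.AtPrime P), ← hb] at h2
          exact ha ((Ideal.mul_unit_mem_iff_mem _ hs).1 h2)
        have hb2 : ∀ y ∈ P, InSat J P (y * b) := by
          intro y hy
          rw [← mem_map_iff (Localization.AtPrime P), map_mul, ← hb, ← mul_assoc]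
          exact Ideal.mul_mem_right _ _ (h1 _
            ((IsLocalization.AtPrime.to_map_mem_maximal_iff _ P y).2 hy))
        obtain ⟨z, hz, hreg, -⟩ := h
        apply hb1
        rw [← inSat_C]
        refine hreg _ ?_
        rw [Ideal.mem_map_C_iff] at hz
        obtain ⟨t, ht, h5⟩ := inSat_finite z.support (fun n => z.coeff n * b)
          (fun n _ => hb2 _ (hz n))
        refine ⟨C t, ?_, ?_⟩
        · rw [Ideal.mem_map_C_iff]
          intro h1
          have := h1 0
          rw [coeff_C_zero] at this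
          exact ht this
        · rw [Ideal.mem_map_C_iff]
          intro n
          rw [coeff_C_mul, coeff_mul_C]
          by_cases hn : n ∈ z.support
          · exact h5 n hn
          · rw [notMem_support_iff.1 hn, zero_mul, mul_zero]; exact J.zero_mem
    obtain ⟨y, hy, hreg, -⟩ := key
    refine ⟨y, hy, hreg, ih ?_⟩
    rw [Ideal.map_sup, Ideal.map_span, Set.image_singleton]
    exact exchange (Ideal.mem_map_of_mem _ hy) (reg_C hreg) h

/-- Ascent. -/
theorem ascent {P : Ideal R} {n : ℕ} {J : Ideal R} (h : E P n J) :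
    E (P.comap (evalRingHom 0)) (n + 1) (J.map (C : R →+* R[X])) := by
  refine ⟨X, ?_, ?_, ?_⟩
  · rw [Ideal.mem_comap, coe_evalRingHom, eval_X]; exact P.zero_mem
  · rintro a ⟨s, hs, h1⟩
    refine ⟨s, hs, ?_⟩
    rw [Ideal.mem_map_C_iff] at h1 ⊢
    intro n
    have := h1 (n + 1)
    have e : s * (X * a) = s * a * X := by ring
    rwa [e, coeff_mul_X] at this
  · have e : J.map (C : R →+* R[X]) ⊔ Ideal.span {X} = J.comap (evalRingHom 0) := by
      apply le_antisymm
      · refine sup_le ?_ ?_
        · rw [Ideal.map_le_iff_le_comap]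
          intro a ha
          rw [Ideal.mem_comap, Ideal.mem_comap, coe_evalRingHom, eval_C]
          exact ha
        · rw [Ideal.span_singleton_le_iff_mem, Ideal.mem_comap, coe_evalRingHom, eval_X]
          exact J.zero_mem
      · intro f hf
        rw [Ideal.mem_comap, coe_evalRingHom] at hf
        rw [← divX_mul_X_add f, add_comm]
        refine Submodule.add_mem_sup ?_ (Ideal.mul_mem_left _ _ (Ideal.mem_span_singleton_self X))
        refine Ideal.mem_map_of_mem _ ?_
        rwa [← coeff_zero_eq_eval_zero] at hf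
    rw [e]
    exact (E_comap (evalRingHom (0 : R)) (fun a => ⟨C a, by simp⟩)).2 h

end Q37.Serre
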