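import Mathlib

/-!
Depth over a Noetherian local ring, for cyclic modules, by the theorem of Rees.
-/

open LinearMap RingTheory.Sequence CategoryTheory Abelian Limits Pointwise IsLocalRing

universe u

namespace Q37.Serre

section Basic

variable {A : Type u} [CommRing A]

/-- `rs` is weakly regular on `A / 𝔞`. -/
def RegL : Ideal A → List A → Prop
  | _, [] => True
  | 𝔞, r :: rs => (∀ a, r * a ∈ 𝔞 → a ∈ 𝔞) ∧ RegL (𝔞 ⊔ Ideal.span {r}) rs

/-- There is a sequence of `n` elements of `𝔪` which is weakly regular on `A / 𝔞`. -/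
def D (𝔪 : Ideal A) : ℕ → Ideal A → Prop
  | 0, _ => True
  | n + 1, 𝔞 => ∃ y ∈ 𝔪, (∀ a, y * a ∈ 𝔞 → a ∈ 𝔞) ∧ D 𝔪 n (𝔞 ⊔ Ideal.span {y})

lemma D_iff {𝔪 : Ideal A} {n : ℕ} : ∀ {𝔞 : Ideal A}, D 𝔪 n 𝔞 ↔
    ∃ rs : List A, rs.length = n ∧ (∀ r ∈ rs, r ∈ 𝔪) ∧ RegL 𝔞 rs := by
  induction n with
  | zero =>
    intro 𝔞
    exact ⟨fun _ => ⟨[], rfl, by simp, trivial⟩, fun _ => trivial⟩
  | succ n ih =>
    intro 𝔞
    constructor
    · rintro ⟨y, hy, hreg, h⟩
      obtain ⟨rs, h1, h2, h3⟩ := ih.1 h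
      exact ⟨y :: rs, by simp [h1], by simpa [hy] using h2, hreg, h3⟩
    · rintro ⟨rs, h1, h2, h3⟩
      match rs, h1, h2, h3 with
      | y :: rs, h1, h2, h3 =>
        exact ⟨y, h2 y List.mem_cons_self, h3.1, ih.2 ⟨rs, by simpa using h1,
          fun r hr => h2 r (List.mem_cons_of_mem _ hr), h3.2⟩⟩

noncomputable def quotEquiv (𝔞 : Ideal A) (r : A) :
    QuotSMulTop r (A ⧸ 𝔞) ≃ₗ[A] A ⧸ (𝔞 ⊔ Ideal.span {r}) := by
  refine (Submodule.quotEquivOfEq _ _ ?_).trans
    (Submodule.quotientQuotientEquivQuotientSup 𝔞 (Ideal.span {r}))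
  ext x
  rw [Submodule.mem_smul_pointwise_iff_exists, Submodule.mem_map]
  constructor
  · rintro ⟨b, -, rfl⟩
    obtain ⟨b, rfl⟩ := Submodule.mkQ_surjective 𝔞 b
    exact ⟨r * b, Ideal.mul_mem_right _ _ (Ideal.mem_span_singleton_self r), by
      rw [← smul_eq_mul, map_smul]⟩
  · rintro ⟨b, hb, rfl⟩
    obtain ⟨c, rfl⟩ := Ideal.mem_span_singleton'.1 hb
    exact ⟨Submodule.mkQ 𝔞 c, trivial, by rw [← map_smul, smul_eq_mul, mul_comm]⟩

lemma smulRegular_iff (𝔞 : Ideal A) (r : A) :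
    IsSMulRegular (A ⧸ 𝔞) r ↔ ∀ a, r * a ∈ 𝔞 → a ∈ 𝔞 := by
  rw [isSMulRegular_iff_right_eq_zero_of_smul]
  constructor
  · intro h a ha
    have := h (Ideal.Quotient.mk 𝔞 a) (by
      rw [← Ideal.Quotient.eq_zero_iff_mem] at ha
      exact ha)
    exact Ideal.Quotient.eq_zero_iff_mem.1 this
  · intro h x hx
    obtain ⟨a, rfl⟩ := Ideal.Quotient.mk_surjective x
    exact Ideal.Quotient.eq_zero_iff_mem.2 (h a (Ideal.Quotient.eq_zero_iff_mem.1 hx))

lemma weak_iff (rs : List A) : ∀ 𝔞 : Ideal A, IsWeaklyRegular (A ⧸ 𝔞) rs ↔ RegL 𝔞 rs := by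
  induction rs with
  | nil => exact fun 𝔞 => ⟨fun _ => trivial, fun _ => IsWeaklyRegular.nil A _⟩
  | cons r rs ih =>
    intro 𝔞
    rw [isWeaklyRegular_cons_iff, (quotEquiv 𝔞 r).isWeaklyRegular_congr, ih, smulRegular_iff]
    rfl

end Basic

section Local

variable {A : Type u} [CommRing A] [IsLocalRing A] [IsNoetherianRing A]

/-- Vanishing of `Ext^i(k, M)` for `i < n`. -/
def DGE (M : Type u) [AddCommGroup M] [Module A M] (n : ℕ) : Prop :=
  ∀ i < n, Subsingleton (Ext (ModuleCat.of A (A ⧸ maximalIdeal A)) (ModuleCat.of A M) i)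

lemma supp_eq : Module.support A (ModuleCat.of A (A ⧸ maximalIdeal A)) =
    PrimeSpectrum.zeroLocus (maximalIdeal A) := by
  rw [Module.support_eq_zeroLocus, Ideal.annihilator_quotient]

lemma smul_lt (M : Type u) [AddCommGroup M] [Module A M] [Module.Finite A M] [Nontrivial M] :
    (maximalIdeal A) • (⊤ : Submodule A M) < ⊤ := by
  rw [lt_top_iff_ne_top]
  intro h
  have := Submodule.eq_bot_of_le_smul_of_le_jacobson_bot (maximalIdeal A) (⊤ : Submodule A M)
    Module.Finite.fg_top h.ge (IsLocalRing.maximalIdeal_le_jacobson _)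
  exact (bot_ne_top : (⊥ : Submodule A M) ≠ ⊤) this.symm

lemma DGE.exists_regular {M : Type u} [AddCommGroup M] [Module A M] [Module.Finite A M]
    [Nontrivial M] {n : ℕ} (h : DGE (A := A) M n) :
    ∃ rs : List A, rs.length = n ∧ (∀ r ∈ rs, r ∈ maximalIdeal A) ∧ IsRegular M rs :=
  ModuleCat.exists_isRegular_of_exists_subsingleton_ext (maximalIdeal A) n (ModuleCat.of A M)
    (smul_lt M) (ModuleCat.of A (A ⧸ maximalIdeal A)) supp_eq h

lemma DGE.of_regular {M : Type u} [AddCommGroup M] [Module A M] [Module.Finite A M]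
    [Nontrivial M] {rs : List A} (hm : ∀ r ∈ rs, r ∈ maximalIdeal A) (h : IsWeaklyRegular M rs) :
    DGE (A := A) M rs.length := by
  have h' : IsRegular M rs :=
    (IsLocalRing.isRegular_iff_isWeaklyRegular_of_subset_maximalIdeal hm).2 h
  exact ModuleCat.subsingleton_ext_of_exists_isRegular (maximalIdeal A)
    (ModuleCat.of A (A ⧸ maximalIdeal A)) supp_eq.subset (ModuleCat.of A M) (smul_lt M) rs hm h'

/-- The depth lemma. -/
lemma DGE.of_exact {M N P : Type u} [AddCommGroup M] [Module A M] [AddCommGroup N] [Module A N]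
    [AddCommGroup P] [Module A P] (f : M →ₗ[A] N) (g : N →ₗ[A] P) (hf : Function.Injective f)
    (hg : Function.Surjective g) (hfg : Function.Exact f g) {n : ℕ} (hN : DGE (A := A) N n)
    (hM : DGE (A := A) M (n + 1)) : DGE (A := A) P n := by
  intro i hi
  let S : ShortComplex (ModuleCat.{u} A) := ShortComplex.mk (ModuleCat.ofHom f) (ModuleCat.ofHom g)
    (by ext x; exact hfg.apply_apply_eq_zero x)
  have hS : S.ShortExact :=
    { exact := (ShortComplex.ShortExact.moduleCat_exact_iff_function_exact S).2 hfg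
      mono_f := (ModuleCat.mono_iff_injective _).2 hf
      epi_g := (ModuleCat.epi_iff_surjective _).2 hg }
  have z1 := AddCommGrpCat.isZero_of_iff_subsingleton.mpr (hN i hi)
  have z2 := AddCommGrpCat.isZero_of_iff_subsingleton.mpr (hM (i + 1) (by omega))
  exact AddCommGrpCat.subsingleton_of_isZero <| ShortComplex.Exact.isZero_of_both_zeros
    ((Ext.covariant_sequence_exact₃' (ModuleCat.of A (A ⧸ maximalIdeal A)) hS) i (i + 1) rfl)
    (z1.eq_zero_of_src _) (z2.eq_zero_of_tgt _)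

end Local

end Q37.Serre
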