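import Pool.Agent.Q37.Serre.Poly

/-!
Stanley-Reisner ideals.
-/

open MvPolynomial

universe u

set_option linter.unusedSectionVars false
set_option linter.style.haveILetI false

namespace Q37.Serre

variable {V : Type u} [DecidableEq V] {k : Type u} [Field k]

variable (k) in
/-- squarefree monomial -/
noncomputable def xm (τ : Finset V) : MvPolynomial V k := ∏ v ∈ τ, X v

/-- exponent of `xm τ` -/
noncomputable def ind (τ : Finset V) : V →₀ ℕ := ∑ v ∈ τ, Finsupp.single v 1

lemma ind_apply (τ : Finset V) (u : V) : ind τ u = if u ∈ τ then 1 else 0 := by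
  unfold ind
  rw [Finsupp.finsetSum_apply]
  simp only [Finsupp.single_apply]
  rw [Finset.sum_ite_eq' τ u]

lemma xm_eq (τ : Finset V) : xm k τ = monomial (ind τ) 1 := by
  unfold xm ind
  rw [monomial_sum_one]
  rfl

lemma ind_le {τ : Finset V} {m : V →₀ ℕ} : ind τ ≤ m ↔ τ ⊆ m.support := by
  constructor
  · intro h v hv
    have := h v
    rw [ind_apply, if_pos hv] at this
    rw [Finsupp.mem_support_iff]; omega
  · intro h v
    rw [ind_apply]
    split_ifs with hv
    · have := h hv
      rw [Finsupp.mem_support_iff] at this; omega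
    · exact Nat.zero_le _

lemma supp_ind (τ : Finset V) : (ind τ).support = τ := by
  ext v
  rw [Finsupp.mem_support_iff, ind_apply]
  split_ifs with h <;> simp [h]

variable (k) in
/-- The ideal generated by the squarefree monomials of the sets outside `Γ`. -/
noncomputable def mI (Γ : Set (Finset V)) : Ideal (MvPolynomial V k) :=
  Ideal.span {f | ∃ τ, τ ∉ Γ ∧ f = xm k τ}

/-- `Γ` is closed under subsets. -/
def Down (Γ : Set (Finset V)) : Prop := ∀ τ ∈ Γ, ∀ τ' ⊆ τ, τ' ∈ Γ

lemma mem_mI {Γ : Set (Finset V)} (hΓ : Down Γ) {f : MvPolynomial V k} :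
    f ∈ mI k Γ ↔ ∀ m ∈ f.support, m.support ∉ Γ := by
  have e : mI k Γ = Ideal.span ((fun s => monomial s (1 : k)) '' {m | ∃ τ, τ ∉ Γ ∧ m = ind τ}) := by
    unfold mI
    congr 1
    ext f
    constructor
    · rintro ⟨τ, hτ, rfl⟩
      exact ⟨ind τ, ⟨τ, hτ, rfl⟩, (xm_eq τ).symm⟩
    · rintro ⟨_, ⟨τ, hτ, rfl⟩, rfl⟩
      exact ⟨τ, hτ, (xm_eq τ).symm⟩
  rw [e, mem_ideal_span_monomial_image]
  refine forall₂_congr fun m _ => ?_
  constructor
  · rintro ⟨_, ⟨τ, hτ, rfl⟩, h⟩ hm
    exact hτ (hΓ _ hm _ (ind_le.1 h))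
  · intro h
    exact ⟨_, ⟨m.support, h, rfl⟩, ind_le.2 (Finset.Subset.refl _)⟩

lemma xm_mem {Γ : Set (Finset V)} {τ : Finset V} (h : τ ∉ Γ) : xm k τ ∈ mI k Γ :=
  Ideal.subset_span ⟨τ, h, rfl⟩

lemma mI_mono {Γ Γ' : Set (Finset V)} (h : Γ ⊆ Γ') : mI k Γ' ≤ mI k Γ := by
  unfold mI
  rw [Ideal.span_le]
  rintro _ ⟨τ, hτ, rfl⟩
  exact xm_mem fun h' => hτ (h h')

/-- the star -/
def St (Γ : Set (Finset V)) (σ : Finset V) : Set (Finset V) := {τ | τ ∪ σ ∈ Γ}

lemma St_down {Γ : Set (Finset V)} (hΓ : Down Γ) (σ : Finset V) : Down (St Γ σ) :=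
  fun _ h _ h' => hΓ _ h _ (Finset.union_subset_union_left h')

lemma mul_mem_mI {Γ : Set (Finset V)} (hΓ : Down Γ) (σ : Finset V) (f : MvPolynomial V k) :
    xm k σ * f ∈ mI k Γ ↔ f ∈ mI k (St Γ σ) := by
  have hsup : ∀ m : V →₀ ℕ, (ind σ + m).support = m.support ∪ σ := by
    intro m
    ext v
    rw [Finsupp.mem_support_iff, Finsupp.add_apply, ind_apply, Finset.mem_union,
      Finsupp.mem_support_iff]
    split_ifs with h <;> simp [h]
  rw [mem_mI hΓ, mem_mI (St_down hΓ σ), xm_eq]
  constructor
  · intro h m hm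
    have h1 : ind σ + m ∈ (monomial (ind σ) (1 : k) * f).support := by
      rw [mem_support_iff, coeff_monomial_mul, one_mul]
      exact mem_support_iff.1 hm
    have := h _ h1
    rw [hsup] at this
    exact this
  · intro h m hm
    rw [mem_support_iff, coeff_monomial_mul'] at hm
    split_ifs at hm with h1
    · obtain ⟨m', rfl⟩ := exists_add_of_le h1
      rw [one_mul, add_tsub_cancel_left] at hm
      rw [hsup]
      exact h m' (mem_support_iff.2 hm)
    · exact absurd rfl hm

/-- deleting the faces containing `σ` -/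
def del (Γ : Set (Finset V)) (A : Set (Finset V)) : Set (Finset V) :=
  {τ | τ ∈ Γ ∧ ∀ σ ∈ A, ¬ σ ⊆ τ}

lemma del_down {Γ : Set (Finset V)} (hΓ : Down Γ) (A : Set (Finset V)) : Down (del Γ A) :=
  fun _ h _ h' => ⟨hΓ _ h.1 _ h', fun σ hσ hs => h.2 σ hσ (hs.trans h')⟩

lemma mI_sup {Γ : Set (Finset V)} (A : Set (Finset V)) (σ : Finset V) :
    mI k (del Γ A) ⊔ Ideal.span {xm k σ} = mI k (del Γ (insert σ A)) := by
  apply le_antisymm
  · refine sup_le (mI_mono fun τ h => ⟨h.1, fun σ' h' => h.2 σ' (Set.mem_insert_of_mem _ h')⟩) ?_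
    rw [Ideal.span_singleton_le_iff_mem]
    exact xm_mem fun h => h.2 σ (Set.mem_insert _ _) (Finset.Subset.refl _)
  · conv_lhs => unfold mI
    rw [Ideal.span_le]
    rintro _ ⟨τ, hτ, rfl⟩
    by_cases h : τ ∈ del Γ A
    · have h1 : σ ⊆ τ := by
        by_contra h2
        apply hτ
        refine ⟨h.1, fun σ' h' => ?_⟩
        rcases Set.mem_insert_iff.1 h' with rfl | h'
        · exact h2
        · exact h.2 σ' h'
      refine Ideal.mem_sup_right ?_
      rw [Ideal.mem_span_singleton]
      exact Finset.prod_dvd_prod_of_subset _ _ _ h1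
    · exact Ideal.mem_sup_left (xm_mem h)

lemma St_del {Γ : Set (Finset V)} (hΓ : Down Γ) {A : Set (Finset V)} {σ : Finset V}
    (h : ∀ σ' ∈ A, σ' ∪ σ ∉ Γ) : St (del Γ A) σ = St Γ σ := by
  ext τ
  constructor
  · intro h1; exact h1.1
  · intro h1
    refine ⟨h1, fun σ' hσ' hs => h σ' hσ' ?_⟩
    exact hΓ _ h1 _ (Finset.union_subset hs Finset.subset_union_right)

section prime

variable [Fintype V] (P : Ideal (MvPolynomial V k)) [P.IsPrime]

open Classical in
/-- the variables outside `P` -/
noncomputable def fp : Finset V := Finset.univ.filter fun v => X v ∉ P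

variable {P}

lemma mem_fp {v : V} : v ∈ fp P ↔ X v ∉ P := by
  unfold fp; simp

omit [Fintype V] [DecidableEq V] in
lemma xm_mem_prime {τ : Finset V} : xm k τ ∈ P ↔ ∃ v ∈ τ, X v ∈ P := by
  classical
  unfold xm
  rw [Ideal.IsPrime.prod_mem_iff]

lemma mI_le_iff {Γ : Set (Finset V)} (hΓ : Down Γ) : mI k Γ ≤ P ↔ fp P ∈ Γ := by
  constructor
  · intro h
    by_contra h1
    obtain ⟨v, hv, h2⟩ := xm_mem_prime.1 (h (xm_mem h1))
    exact mem_fp.1 hv h2
  · intro h
    unfold mI
    rw [Ideal.span_le]
    rintro _ ⟨τ, hτ, rfl⟩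
    refine xm_mem_prime.2 ?_
    by_contra hcon
    push Not at hcon
    exact hτ (hΓ _ h _ fun v hv => mem_fp.2 (hcon v hv))

end prime

/-- The faces of a simplex. -/
def sx (F : Finset V) : Set (Finset V) := {τ | τ ⊆ F}

lemma sx_down (F : Finset V) : Down (sx F) := fun _ h _ h' => h'.trans h

lemma mI_sx [Fintype V] (F : Finset V) : mI k (sx F) = Ideal.span (X '' {v | v ∉ F}) := by
  apply le_antisymm
  · unfold mI
    rw [Ideal.span_le]
    rintro _ ⟨τ, hτ, rfl⟩
    obtain ⟨v, hv, hvF⟩ := Finset.not_subset.1 hτ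
    refine Ideal.mem_of_dvd _ (Finset.dvd_prod_of_mem _ hv) (Ideal.subset_span ⟨v, hvF, rfl⟩)
  · rw [Ideal.span_le]
    rintro _ ⟨v, hv, rfl⟩
    have : (X v : MvPolynomial V k) = xm k {v} := by unfold xm; simp
    rw [this]
    exact xm_mem fun h => hv (h (Finset.mem_singleton_self v))

lemma mI_sx_prime (F : Finset V) : (mI k (sx F)).IsPrime := by
  classical
  refine ⟨fun h => ?_, fun {f g} hfg => ?_⟩
  · have h1 : (1 : MvPolynomial V k) ∈ mI k (sx F) := h ▸ trivial
    rw [mem_mI (sx_down F)] at h1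
    refine h1 0 ?_ ?_
    · rw [mem_support_iff, coeff_zero_one]; exact one_ne_zero
    · rw [Finsupp.support_zero]; exact Finset.empty_subset _
  · -- kernel of the evaluation
    let φ : MvPolynomial V k →ₐ[k] MvPolynomial V k := aeval fun v => if v ∈ F then X v else 0
    have hφ : ∀ m : V →₀ ℕ, ∀ c, φ (monomial m c) = if m.support ⊆ F then monomial m c else 0 := by
      intro m c
      simp only [φ]
      rw [aeval_monomial]
      split_ifs with h
      · rw [monomial_eq]
        congr 1
        refine Finsupp.prod_congr fun i hi => ?_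
        rw [if_pos (h hi)]
      · obtain ⟨i, hi, hiF⟩ := Finset.not_subset.1 h
        rw [Finsupp.prod, Finset.prod_eq_zero hi, mul_zero]
        rw [if_neg hiF, zero_pow (Finsupp.mem_support_iff.1 hi)]
    have hker : ∀ f, f ∈ mI k (sx F) ↔ φ f = 0 := by
      intro f
      rw [mem_mI (sx_down F)]
      have hcoeff : ∀ m, coeff m (φ f) = if m.support ⊆ F then coeff m f else 0 := by
        intro m
        conv_lhs => rw [← support_sum_monomial_coeff f]
        rw [map_sum, coeff_sum]
        simp only [hφ]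
        rw [Finset.sum_congr rfl (g := fun x => if x = m then
          (if m.support ⊆ F then coeff m f else 0) else 0)]
        · rw [Finset.sum_ite_eq' f.support m]
          split_ifs with h1 h2 h2
          · rfl
          · rfl
          · rw [notMem_support_iff] at h1; exact h1.symm
          · rfl
        · intro x _
          by_cases hx : x = m
          · subst hx
            rw [if_pos rfl]
            split_ifs with h
            · rw [coeff_monomial, if_pos rfl]
            · rw [coeff_zero]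
          · rw [if_neg hx]
            split_ifs with h
            · rw [coeff_monomial, if_neg hx]
            · rw [coeff_zero]
      constructor
      · intro h
        ext m
        rw [hcoeff, coeff_zero]
        split_ifs with h1
        · by_contra h2
          exact h m (mem_support_iff.2 h2) h1
        · rfl
      · intro h m hm h1
        have := hcoeff m
        have h1' : m.support ⊆ F := h1
        rw [h, coeff_zero, if_pos h1'] at this
        exact mem_support_iff.1 hm this.symm
    rw [hker] at hfg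
    rw [hker, hker]
    rw [map_mul] at hfg
    exact mul_eq_zero.1 hfg

lemma fp_sx [Fintype V] (F : Finset V) : haveI := mI_sx_prime (k := k) F; fp (mI k (sx F)) = F := by
  haveI := mI_sx_prime (k := k) F
  ext v
  rw [mem_fp]
  constructor
  · intro h
    by_contra hv
    apply h
    rw [mI_sx]
    exact Ideal.subset_span ⟨v, hv, rfl⟩
  · intro hv h
    rw [mem_mI (sx_down F)] at h
    refine h (Finsupp.single v 1) ?_ ?_
    · rw [mem_support_iff, coeff_X, if_pos rfl]; exact (one_ne_zero : (1 : k) ≠ 0)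
    · rw [Finsupp.support_single _ (one_ne_zero : (1 : ℕ) ≠ 0)]
      exact Finset.singleton_subset_iff.2 hv

end Q37.Serre
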