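import Pool.Agent.Q37.Serre.Ht

/-!
The step: regular sequences on the Stanley-Reisner ring of a star.
-/

set_option linter.unusedSectionVars false
set_option linter.style.haveILetI false

open MvPolynomial

universe u

namespace Q37.Serre

variable {V : Type u} [DecidableEq V] [Fintype V] {k : Type u} [Field k]

variable (k) in
/-- Splitting off a variable. -/
noncomputable def ev (v : V) : MvPolynomial V k ≃ₐ[k] Polynomial (MvPolynomial {u // u ≠ v} k) :=
  (renameEquiv k (Equiv.optionSubtypeNe v).symm).trans (optionEquivLeft k {u // u ≠ v})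

lemma ev_self (v : V) : ev k v (X v) = Polynomial.X := by
  unfold ev
  rw [AlgEquiv.trans_apply, renameEquiv_apply, rename_X, Equiv.optionSubtypeNe_symm_self,
    optionEquivLeft_X_none]

lemma ev_ne {v : V} (u : {u // u ≠ v}) : ev k v (X u.1) = Polynomial.C (X u) := by
  unfold ev
  rw [AlgEquiv.trans_apply, renameEquiv_apply, rename_X,
    Equiv.optionSubtypeNe_symm_of_ne u.2, optionEquivLeft_X_some]

/-- the link of a vertex -/
def lk (Γ : Set (Finset V)) (v : V) : Set (Finset {u // u ≠ v}) :=
  {τ | τ.map (Function.Embedding.subtype _) ∈ Γ}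

lemma ev_xm {v : V} (τ : Finset {u // u ≠ v}) :
    ev k v (xm k (τ.map (Function.Embedding.subtype _))) = Polynomial.C (xm k τ) := by
  unfold xm
  rw [map_prod, map_prod, Finset.prod_map]
  exact Finset.prod_congr rfl fun u _ => ev_ne u

variable (k) in
/-- `ev` as a ring homomorphism -/
noncomputable def evH (v : V) :
    MvPolynomial V k →+* Polynomial (MvPolynomial {u // u ≠ v} k) :=
  RingHomClass.toRingHom (ev k v)

variable (k) in
/-- the inverse of `ev` as a ring homomorphism -/
noncomputable def evS (v : V) :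
    Polynomial (MvPolynomial {u // u ≠ v} k) →+* MvPolynomial V k :=
  RingHomClass.toRingHom (ev k v).symm

lemma evH_apply (v : V) (f : MvPolynomial V k) : evH k v f = ev k v f := rfl

lemma evS_evH (v : V) (f : MvPolynomial V k) : evS k v (evH k v f) = f :=
  (ev k v).symm_apply_apply f

lemma evH_evS (v : V) (f : Polynomial (MvPolynomial {u // u ≠ v} k)) :
    evH k v (evS k v f) = f :=
  (ev k v).apply_symm_apply f

lemma evH_surj (v : V) : Function.Surjective (evH k v) := (ev k v).surjective

lemma evH_self (v : V) : evH k v (X v) = Polynomial.X := ev_self v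

lemma evH_ne {v : V} (u : {u // u ≠ v}) : evH k v (X u.1) = Polynomial.C (X u) := ev_ne u

lemma evH_xm {v : V} (τ : Finset {u // u ≠ v}) :
    evH k v (xm k (τ.map (Function.Embedding.subtype _))) = Polynomial.C (xm k τ) := ev_xm τ

variable (k) in
/-- the ideal of the link, extended to the polynomial ring -/
noncomputable def JL (Γ : Set (Finset V)) (v : V) : Ideal (Polynomial (MvPolynomial {u // u ≠ v} k)) :=
  (mI k (lk Γ v)).map Polynomial.C

lemma comap_ev {Γ : Set (Finset V)} (hΓ : Down Γ) {v : V} (hv : ∀ τ ∈ Γ, insert v τ ∈ Γ) :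
    (JL k Γ v).comap (evH k v) = mI k Γ := by
  apply le_antisymm
  · intro f hf
    rw [Ideal.mem_comap] at hf
    have h1 : JL k Γ v ≤ (mI k Γ).comap (evS k v) := by
      unfold JL
      rw [Ideal.map_le_iff_le_comap]
      conv_lhs => unfold mI
      rw [Ideal.span_le]
      rintro _ ⟨τ, hτ, rfl⟩
      rw [SetLike.mem_coe, Ideal.mem_comap, Ideal.mem_comap, ← evH_xm, evS_evH]
      exact xm_mem hτ
    have h2 := h1 hf
    rwa [Ideal.mem_comap, evS_evH] at h2
  · conv_lhs => unfold mI
    rw [Ideal.span_le]
    rintro _ ⟨τ, hτ, rfl⟩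
    rw [SetLike.mem_coe, Ideal.mem_comap]
    have h1 : τ.erase v ∉ Γ := by
      intro h
      refine hτ (hΓ _ (hv _ h) _ ?_)
      intro x hx
      rw [Finset.mem_insert, Finset.mem_erase]
      by_cases hxv : x = v
      · exact Or.inl hxv
      · exact Or.inr ⟨hxv, hx⟩
    have h2 : (τ.erase v) = (τ.subtype (fun u => u ≠ v)).map (Function.Embedding.subtype _) := by
      ext x
      simp only [Finset.mem_erase, Finset.mem_map, Finset.mem_subtype,
        Function.Embedding.coe_subtype, Subtype.exists, exists_and_left, exists_prop,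
        exists_eq_right_right]
      tauto
    have h3 : xm k (τ.erase v) ∣ xm k τ :=
      Finset.prod_dvd_prod_of_subset _ _ _ (Finset.erase_subset _ _)
    refine Ideal.mem_of_dvd _ (map_dvd (evH k v) h3) ?_
    rw [h2, evH_xm]
    refine Ideal.mem_map_of_mem _ (xm_mem ?_)
    intro h
    apply h1
    rw [h2]
    exact h

section split

variable (v : V) (P : Ideal (MvPolynomial V k)) [P.IsPrime]

/-- `P` in the polynomial ring -/
noncomputable def Ph : Ideal (Polynomial (MvPolynomial {u // u ≠ v} k)) := P.comap (evS k v)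

instance : (Ph v P).IsPrime := by unfold Ph; infer_instance

/-- The prime of the smaller ring. -/
noncomputable def P0 : Ideal (MvPolynomial {u // u ≠ v} k) := (Ph v P).comap Polynomial.C

instance : (P0 v P).IsPrime := by unfold P0; infer_instance

/-- the extension of `P0` -/
noncomputable def PE : Ideal (Polynomial (MvPolynomial {u // u ≠ v} k)) :=
  (P0 v P).map Polynomial.C

instance : (PE v P).IsPrime := by unfold PE; exact Ideal.isPrime_map_C_of_isPrime

/-- The extension of `P0`. -/
noncomputable def Q0 : Ideal (MvPolynomial V k) := (PE v P).comap (evH k v)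

instance : (Q0 v P).IsPrime := by unfold Q0; infer_instance

variable {v P}

lemma mem_Ph {f : MvPolynomial V k} : evH k v f ∈ Ph v P ↔ f ∈ P := by
  unfold Ph
  rw [Ideal.mem_comap, evS_evH]

lemma mem_P0 {u : {u // u ≠ v}} : X u ∈ P0 v P ↔ X u.1 ∈ P := by
  unfold P0
  rw [Ideal.mem_comap, ← evH_ne, mem_Ph]

lemma C_mem_PE {f : MvPolynomial {u // u ≠ v} k} : Polynomial.C f ∈ PE v P ↔ f ∈ P0 v P := by
  unfold PE
  rw [Ideal.mem_map_C_iff]
  constructor
  · intro h
    have := h 0
    rwa [Polynomial.coeff_C_zero] at this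
  · intro h n
    rw [Polynomial.coeff_C]
    split_ifs
    · exact h
    · exact Ideal.zero_mem _

lemma X_notMem_PE : Polynomial.X ∉ PE v P := by
  unfold PE
  rw [Ideal.mem_map_C_iff]
  intro h
  have := h 1
  rw [Polynomial.coeff_X_one] at this
  exact Ideal.IsPrime.ne_top' ((Ideal.eq_top_iff_one (P0 v P)).2 this)

lemma fp_Q0 : fp (Q0 v P) = insert v (fp P) := by
  ext x
  rw [Finset.mem_insert, mem_fp, mem_fp]
  unfold Q0
  rw [Ideal.mem_comap]
  by_cases hx : x = v
  · subst hx
    simp only [true_or, iff_true]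
    rw [evH_self]
    exact X_notMem_PE
  · simp only [hx, false_or]
    refine not_congr ?_
    rw [← mem_P0 (v := v) (P := P) (u := ⟨x, hx⟩), ← C_mem_PE, ← evH_ne]

lemma X_mem_Ph (hv : X v ∈ P) : Polynomial.X ∈ Ph v P := by
  rw [← evH_self, mem_Ph]; exact hv

lemma hat_eq (hv : X v ∈ P) : Ph v P = (P0 v P).comap (Polynomial.evalRingHom 0) := by
  have hX := X_mem_Ph hv
  ext f
  rw [Ideal.mem_comap, Polynomial.coe_evalRingHom]
  unfold P0
  rw [Ideal.mem_comap, ← Polynomial.coeff_zero_eq_eval_zero]
  conv_lhs => rw [← Polynomial.divX_mul_X_add f]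
  constructor
  · intro h
    have := (Ph v P).sub_mem h ((Ph v P).mul_mem_left f.divX hX)
    rwa [add_sub_cancel_left] at this
  · intro h
    exact (Ph v P).add_mem ((Ph v P).mul_mem_left _ hX) h

lemma comap_Ph : (Ph v P).comap (evH k v) = P := by
  ext f
  rw [Ideal.mem_comap, mem_Ph]

end split

end Q37.Serre
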