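import Pool.Agent.Q37.Serre.Step

/-!
The step: regular sequences and heights after splitting off a variable.
-/

set_option linter.unusedSectionVars false
set_option linter.style.haveILetI false

open MvPolynomial

universe u

namespace Q37.Serre

variable {V : Type u} [DecidableEq V] [Fintype V] {k : Type u} [Field k]
variable {v : V} {P : Ideal (MvPolynomial V k)} [P.IsPrime]

lemma E_split {Γ : Set (Finset V)} (hΓ : Down Γ) (hv : ∀ τ ∈ Γ, insert v τ ∈ Γ) (hvP : X v ∈ P)
    {n : ℕ} (h : E (Q0 v P) n (mI k Γ)) : E P (n + 1) (mI k Γ) := by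
  rw [← comap_ev hΓ hv] at h
  have h1 : E (PE v P) n (JL k Γ v) := (E_comap (evH k v) (evH_surj v)).1 h
  have h1' : E (P0 v P) n (mI k (lk Γ v)) := descent h1
  have h2 : E (Ph v P) (n + 1) (JL k Γ v) := by
    rw [hat_eq hvP]
    exact ascent h1'
  have h3 := (E_comap (evH k v) (evH_surj v)).2 h2
  rw [comap_ev hΓ hv, comap_Ph] at h3
  exact h3

/-- `C` is strictly monotone on primes -/
lemma height_map_C_ge {R : Type u} [CommRing R] (p : Ideal R) [p.IsPrime] :
    p.height ≤ (p.map (Polynomial.C : R →+* Polynomial R)).height := by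
  haveI : (p.map (Polynomial.C : R →+* Polynomial R)).IsPrime := Ideal.isPrime_map_C_of_isPrime
  have e : ∀ (x : R) (I : Ideal R),
      Polynomial.C x ∈ (I.map (Polynomial.C : R →+* Polynomial R)) ↔ x ∈ I := by
    intro x I
    rw [Ideal.mem_map_C_iff]
    constructor
    · intro h
      have := h 0
      rwa [Polynomial.coeff_C_zero] at this
    · intro h n
      rw [Polynomial.coeff_C]
      split_ifs
      · exact h
      · exact Ideal.zero_mem _
  let g : PrimeSpectrum R → PrimeSpectrum (Polynomial R) := fun p =>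
    ⟨p.asIdeal.map Polynomial.C, Ideal.isPrime_map_C_of_isPrime⟩
  have hg : StrictMono g := by
    intro p q hpq
    refine lt_of_le_of_ne (Ideal.map_mono hpq.le) fun h => hpq.ne ?_
    ext x
    have h' : (g p).asIdeal = (g q).asIdeal := by rw [h]
    rw [← e x p.asIdeal, ← e x q.asIdeal]
    show Polynomial.C x ∈ (g p).asIdeal ↔ Polynomial.C x ∈ (g q).asIdeal
    rw [h']
  have h6 := Order.height_le_height_apply_of_strictMono g hg ⟨p, inferInstance⟩
  rw [← PrimeSpectrum.height_eq_orderHeight, ← PrimeSpectrum.height_eq_orderHeight] at h6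
  exact h6

lemma height_X {R : Type u} [CommRing R] [IsNoetherianRing R] (P : Ideal (Polynomial R))
    [P.IsPrime] (hX : Polynomial.X ∈ P) : P.height ≤ (P.comap Polynomial.C).height + 1 := by
  have h3 := Ideal.height_le_height_add_one_of_mem hX
  refine h3.trans (add_le_add ?_ le_rfl)
  have hle : Ideal.span {(Polynomial.X : Polynomial R)} ≤ P := by
    rwa [Ideal.span_singleton_le_iff_mem]
  haveI := map_prime hle
  have hs : Function.Surjective
      ((Ideal.Quotient.mk (Ideal.span {(Polynomial.X : Polynomial R)})).comp Polynomial.C) := by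
    intro x
    obtain ⟨x, rfl⟩ := Ideal.Quotient.mk_surjective x
    refine ⟨x.coeff 0, ?_⟩
    rw [RingHom.comp_apply, Ideal.Quotient.eq, Ideal.mem_span_singleton, ← neg_sub, dvd_neg]
    refine ⟨x.divX, ?_⟩
    have := Polynomial.divX_mul_X_add x
    linear_combination -this
  have h4 := height_comap_ge _ hs (P.map (Ideal.Quotient.mk (Ideal.span
    {(Polynomial.X : Polynomial R)})))
  have h5 : (P.map (Ideal.Quotient.mk (Ideal.span {(Polynomial.X : Polynomial R)}))).comap
      ((Ideal.Quotient.mk (Ideal.span {(Polynomial.X : Polynomial R)})).comp Polynomial.C) =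
      P.comap Polynomial.C := by
    rw [← Ideal.comap_comap, Ideal.comap_map_of_surjective _ Ideal.Quotient.mk_surjective,
      ← RingHom.ker_eq_comap_bot, Ideal.mk_ker, sup_eq_left.2 hle]
  rw [h5] at h4
  exact h4

lemma height_split (hvP : X v ∈ P) : P.height ≤ (Q0 v P).height + 1 := by
  have h1 : P.height = (Ph v P).height := (RingEquiv.height_comap (ev k v).symm.toRingEquiv P).symm
  have h2 : (Q0 v P).height = (PE v P).height :=
    RingEquiv.height_comap (ev k v).toRingEquiv _
  rw [h1, h2]
  refine (height_X _ (X_mem_Ph hvP)).trans (add_le_add ?_ le_rfl)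
  exact height_map_C_ge (P0 v P)

end Q37.Serre
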