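import Pool.Agent.Q37.Serre.Step2

/-!
Translations; regular sequences on the Stanley-Reisner ring of a star.
-/

set_option linter.unusedSectionVars false
set_option linter.style.haveILetI false

open MvPolynomial

universe u

namespace Q37.Serre

variable {V : Type u} [DecidableEq V] [Fintype V] {k : Type u} [Field k]

/-! ### Translations -/

/-- translation -/
noncomputable def tr (c : V → k) : MvPolynomial V k →ₐ[k] MvPolynomial V k :=
  aeval fun u => X u - C (c u)

lemma tr_tr (c : V → k) (f : MvPolynomial V k) : tr (-c) (tr c f) = f := by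
  have : (tr (-c)).comp (tr c) = AlgHom.id k _ := by
    apply MvPolynomial.algHom_ext
    intro u
    rw [AlgHom.comp_apply]
    unfold tr
    rw [aeval_X, map_sub, aeval_X, ← algebraMap_eq, AlgHom.commutes, algebraMap_eq]
    simp
  exact DFunLike.congr_fun this f

lemma tr_tr' (c : V → k) (f : MvPolynomial V k) : tr c (tr (-c) f) = f := by
  have := tr_tr (-c) f
  rwa [neg_neg] at this

/-- translation -/
noncomputable def trE (c : V → k) : MvPolynomial V k ≃+* MvPolynomial V k :=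
  RingEquiv.ofRingHom (RingHomClass.toRingHom (tr c)) (RingHomClass.toRingHom (tr (-c)))
    (RingHom.ext (tr_tr' c)) (RingHom.ext (tr_tr c))

/-- translation -/
noncomputable def trH (c : V → k) : MvPolynomial V k →+* MvPolynomial V k :=
  RingHomClass.toRingHom (tr c)

lemma trH_apply (c : V → k) (f : MvPolynomial V k) : trH c f = tr c f := rfl

lemma trH_surj (c : V → k) : Function.Surjective (trH c) := fun f => ⟨tr (-c) f, tr_tr' c f⟩

lemma mI_le_comap {Γ : Set (Finset V)} (hΓ : Down Γ) {σ : Finset V}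
    (hσ : ∀ τ ∈ Γ, τ ∪ σ ∈ Γ) (c : V → k) (hc : ∀ u ∉ σ, c u = 0) :
    mI k Γ ≤ (mI k Γ).comap (trH c) := by
  conv_lhs => unfold mI
  rw [Ideal.span_le]
  rintro _ ⟨τ, hτ, rfl⟩
  rw [SetLike.mem_coe, Ideal.mem_comap, trH_apply]
  have h1 : τ \ σ ∉ Γ := fun h => hτ (hΓ _ (hσ _ h) _ (by
    intro x hx
    rw [Finset.mem_union, Finset.mem_sdiff]
    by_cases hxσ : x ∈ σ
    · exact Or.inr hxσ
    · exact Or.inl ⟨hx, hxσ⟩))
  have h3 : xm k (τ \ σ) ∣ xm k τ :=
    Finset.prod_dvd_prod_of_subset _ _ _ Finset.sdiff_subset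
  refine Ideal.mem_of_dvd _ (map_dvd (tr c) h3) ?_
  have h4 : tr c (xm k (τ \ σ)) = xm k (τ \ σ) := by
    unfold xm tr
    rw [map_prod]
    refine Finset.prod_congr rfl fun u hu => ?_
    rw [aeval_X, hc u (Finset.mem_sdiff.1 hu).2, map_zero, sub_zero]
  rw [h4]
  exact xm_mem h1

lemma comap_tr {Γ : Set (Finset V)} (hΓ : Down Γ) {σ : Finset V}
    (hσ : ∀ τ ∈ Γ, τ ∪ σ ∈ Γ) (c : V → k) (hc : ∀ u ∉ σ, c u = 0) :
    (mI k Γ).comap (trH c) = mI k Γ := by
  apply le_antisymm
  · intro f hf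
    rw [Ideal.mem_comap, trH_apply] at hf
    have h1 := mI_le_comap hΓ hσ (-c) (fun u hu => by simp [hc u hu]) hf
    rwa [Ideal.mem_comap, trH_apply, tr_tr] at h1
  · exact mI_le_comap hΓ hσ c hc

/-- Serre's condition in elementary terms. -/
def SE (ℓ : ℕ) (I : Ideal (MvPolynomial V k)) : Prop :=
  ∀ (P : Ideal (MvPolynomial V k)) [P.IsPrime], I ≤ P → ∀ n ≤ ℓ, (n : ℕ∞) ≤ hq I P → E P n I

lemma E_star {Δ : Set (Finset V)} (hΔ : Down Δ) (σ : Finset V) {ℓ : ℕ} (hS : SE ℓ (mI k Δ))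
    {Q : Ideal (MvPolynomial V k)} [Q.IsPrime] {F : Finset V} (hF : F ∈ Δ) (hQF : fp Q ∪ σ ⊆ F)
    {n : ℕ} (hn : n ≤ ℓ) (hh : ((n + (Fintype.card V - F.card) : ℕ) : ℕ∞) ≤ Q.height) :
    E Q n (mI k (St Δ σ)) := by
  classical
  have hσ : ∀ τ ∈ St Δ σ, τ ∪ σ ∈ St Δ σ := by
    intro τ hτ
    show τ ∪ σ ∪ σ ∈ Δ
    rw [Finset.union_assoc, Finset.union_self]
    exact hτ
  set c : V → k := fun u => if u ∈ σ ∧ X u ∈ Q then 1 else 0 with hc
  have hc0 : ∀ u ∉ σ, c u = 0 := by
    intro u hu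
    simp only [hc]
    rw [if_neg (fun h => hu h.1)]
  set P' : Ideal (MvPolynomial V k) := Q.comap (trH c) with hP'
  haveI hPp : P'.IsPrime := Ideal.comap_isPrime _ _
  have hX : ∀ u, X u ∈ P' ↔ X u - C (c u) ∈ Q := by
    intro u
    rw [hP', Ideal.mem_comap, trH_apply]
    unfold tr
    rw [aeval_X]
  have hXσ : ∀ u ∈ σ, X u ∉ P' := by
    intro u hu h
    rw [hX] at h
    by_cases huQ : X u ∈ Q
    · have h1 : c u = 1 := by simp only [hc]; rw [if_pos ⟨hu, huQ⟩]
      rw [h1, map_one] at h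
      have := Q.sub_mem huQ h
      rw [sub_sub_cancel] at this
      exact Ideal.IsPrime.ne_top' ((Ideal.eq_top_iff_one Q).2 this)
    · have h1 : c u = 0 := by simp only [hc]; rw [if_neg fun h => huQ h.2]
      rw [h1, map_zero, sub_zero] at h
      exact huQ h
  have hfp : fp P' ⊆ F := by
    intro u hu
    by_cases huσ : u ∈ σ
    · exact hQF (Finset.mem_union_right _ huσ)
    · refine hQF (Finset.mem_union_left _ ?_)
      rw [mem_fp] at hu ⊢
      rw [hX, hc0 u huσ, map_zero, sub_zero] at hu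
      exact hu
  have hle : mI k Δ ≤ P' := (mI_le_iff hΔ).2 (hΔ _ hF _ hfp)
  have hht : P'.height = Q.height := RingEquiv.height_comap (trE c) Q
  have h1 : (n : ℕ∞) ≤ hq (mI k Δ) P' := by
    have h2 := height_le hΔ hF hfp
    rw [hht] at h2
    have h3 := hh.trans h2
    push_cast at h3
    exact (ENat.add_le_add_iff_right (ENat.natCast_ne_top _)).1 h3
  have h2 : E P' n (mI k Δ) := hS P' hle n hn h1
  have h3 : E P' n (mI k (St Δ σ)) := by
    refine (E_congr fun a => ?_).1 h2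
    have hxm : xm k σ ∉ P' := by
      rw [xm_mem_prime]
      push Not
      exact hXσ
    constructor
    · rintro ⟨s, hs, h⟩
      exact ⟨s, hs, mI_mono (Γ := St Δ σ) (Γ' := Δ)
        (fun τ hτ => hΔ (τ ∪ σ) hτ τ Finset.subset_union_left) h⟩
    · rintro ⟨s, hs, h⟩
      refine ⟨xm k σ * s, fun h' => ?_, ?_⟩
      · rcases hPp.mem_or_mem h' with h' | h'
        · exact hxm h'
        · exact hs h'
      · rw [mul_assoc, mul_mem_mI hΔ]; exact h
  have h4 := E_comap (trH c) (trH_surj c) (P := Q) (n := n) (J := mI k (St Δ σ))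
  rw [comap_tr (St_down hΔ σ) hσ c hc0] at h4
  exact h4.1 h3

/-- The key step. -/
theorem key {Δ : Set (Finset V)} (hΔ : Down Δ) {σ : Finset V} {ℓ : ℕ} (hS : SE ℓ (mI k Δ))
    {P : Ideal (MvPolynomial V k)} [P.IsPrime] {v : V} (hvσ : v ∈ σ) (hvP : X v ∈ P)
    {F : Finset V} (hF : F ∈ Δ) (hPF : fp P ∪ σ ⊆ F)
    {n : ℕ} (hn : n ≤ ℓ) (hh : ((n + (Fintype.card V - F.card) + 1 : ℕ) : ℕ∞) ≤ P.height) :
    E P (n + 1) (mI k (St Δ σ)) := by
  refine E_split (St_down hΔ σ) (v := v) ?_ hvP ?_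
  · intro τ hτ
    refine hΔ _ hτ _ ?_
    refine Finset.union_subset (Finset.insert_subset (Finset.mem_union_right _ hvσ)
      Finset.subset_union_left) Finset.subset_union_right
  · refine E_star hΔ σ hS hF ?_ hn ?_
    · rw [fp_Q0]
      refine Finset.union_subset (Finset.insert_subset ?_ ?_) ?_
      · exact hPF (Finset.mem_union_right _ hvσ)
      · exact Finset.subset_union_left.trans hPF
      · exact Finset.subset_union_right.trans hPF
    · have h1 := hh.trans (height_split hvP)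
      push_cast at h1 ⊢
      exact (ENat.add_le_add_iff_right ENat.one_ne_top).1 h1

end Q37.Serre
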